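import Mathlib

set_option linter.unusedSectionVars false

namespace H350MG
open MvPolynomial

noncomputable section

variable {𝕜 : Type} [Field 𝕜] [CharZero 𝕜] {σ : Type*} [Fintype σ] [DecidableEq σ]

/-- the directional derivative along `v`, as a derivation -/
def dirD (v : σ → 𝕜) : Derivation 𝕜 (MvPolynomial σ 𝕜) (MvPolynomial σ 𝕜) :=
  ∑ i, v i • pderiv i

/-- the directional derivative along `v`, as a linear endomorphism -/
def D (v : σ → 𝕜) : Module.End 𝕜 (MvPolynomial σ 𝕜) := (dirD v).toLinearMap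

lemma dirD_apply (v : σ → 𝕜) (F : MvPolynomial σ 𝕜) :
    dirD v F = ∑ i, v i • pderiv i F := by
  unfold dirD
  rw [← Derivation.coeFnAddMonoidHom_apply, map_sum, Finset.sum_apply]
  rfl

lemma D_apply (v : σ → 𝕜) (F : MvPolynomial σ 𝕜) :
    D v F = ∑ i, v i • pderiv i F := dirD_apply v F

lemma D_mul (v : σ → 𝕜) (F G : MvPolynomial σ 𝕜) :
    D v (F * G) = D v F * G + F * D v G := by
  have := (dirD v).leibniz F G
  change dirD v (F * G) = dirD v F * G + F * dirD v G
  rw [this]; simp only [smul_eq_mul]; ring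

lemma pderiv_comm' (i j : σ) (F : MvPolynomial σ 𝕜) :
    pderiv i (pderiv j F) = pderiv j (pderiv i F) := by
  ext m
  simp only [coeff_pderiv]
  by_cases h : i = j
  · subst h; rfl
  · have h1 : (m + Finsupp.single i 1 : σ →₀ ℕ) j = m j := by
      simp [h]
    have h2 : (m + Finsupp.single j 1 : σ →₀ ℕ) i = m i := by
      simp [Ne.symm h]
    rw [h1, h2, add_right_comm]; ring

lemma pderiv_D (i : σ) (v : σ → 𝕜) (F : MvPolynomial σ 𝕜) :
    pderiv i (D v F) = D v (pderiv i F) := by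
  rw [D_apply, D_apply, map_sum]
  refine Finset.sum_congr rfl fun j _ => ?_
  rw [Derivation.map_smul, pderiv_comm']

lemma D_comm_apply (v w : σ → 𝕜) (F : MvPolynomial σ 𝕜) : D v (D w F) = D w (D v F) := by
  rw [D_apply w, D_apply w, map_sum]
  refine Finset.sum_congr rfl fun j _ => ?_
  rw [map_smul, pderiv_D]

lemma D_comm (v w : σ → 𝕜) : Commute (D v) (D w) := by
  exact LinearMap.ext fun F => D_comm_apply v w F

lemma Dpow_comm (v w : σ → 𝕜) (a b : ℕ) : Commute (D v ^ a) (D w ^ b) :=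
  (D_comm v w).pow_pow a b

lemma Dpow_comm_apply (v w : σ → 𝕜) (a b : ℕ) (F : MvPolynomial σ 𝕜) :
    (D v ^ a) ((D w ^ b) F) = (D w ^ b) ((D v ^ a) F) :=
  congrArg (fun T : Module.End 𝕜 (MvPolynomial σ 𝕜) => T F) (Dpow_comm v w a b).eq

lemma pderiv_Dpow (i : σ) (v : σ → 𝕜) (k : ℕ) (F : MvPolynomial σ 𝕜) :
    pderiv i ((D v ^ k) F) = (D v ^ k) (pderiv i F) := by
  induction k generalizing F with
  | zero => simp
  | succ k ih => rw [pow_succ, Module.End.mul_apply, Module.End.mul_apply, ih, pderiv_D]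

lemma D_single (i : σ) (F : MvPolynomial σ 𝕜) : D (Pi.single i 1) F = pderiv i F := by
  rw [D_apply, Finset.sum_eq_single i]
  · simp
  · intro j _ hj; simp [Pi.single_apply, hj]
  · simp

/-- homogeneous forms -/
abbrev Rj (𝕜 : Type) [Field 𝕜] (σ : Type*) (j : ℕ) : Submodule 𝕜 (MvPolynomial σ 𝕜) :=
  homogeneousSubmodule σ 𝕜 j

lemma pderiv_hom {i : σ} {j : ℕ} {F : MvPolynomial σ 𝕜} (h : F ∈ Rj 𝕜 σ j) :
    pderiv i F ∈ Rj 𝕜 σ (j - 1) := by
  rw [mem_homogeneousSubmodule] at *
  exact h.pderiv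

lemma D_hom {v : σ → 𝕜} {j : ℕ} {F : MvPolynomial σ 𝕜} (h : F ∈ Rj 𝕜 σ j) :
    D v F ∈ Rj 𝕜 σ (j - 1) := by
  rw [D_apply]
  exact Submodule.sum_mem _ fun i _ => Submodule.smul_mem _ _ (pderiv_hom h)

lemma pderiv_zero_hom {i : σ} {F : MvPolynomial σ 𝕜} (h : F ∈ Rj 𝕜 σ 0) :
    pderiv i F = 0 := by
  rw [mem_homogeneousSubmodule, ← totalDegree_zero_iff_isHomogeneous,
    totalDegree_eq_zero_iff_eq_C] at h
  rw [h, pderiv_C]

lemma D_zero_hom {v : σ → 𝕜} {F : MvPolynomial σ 𝕜} (h : F ∈ Rj 𝕜 σ 0) : D v F = 0 := by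
  rw [D_apply]
  exact Finset.sum_eq_zero fun i _ => by rw [pderiv_zero_hom h, smul_zero]

lemma Dpow_hom {v : σ → 𝕜} {j : ℕ} (k : ℕ) {F : MvPolynomial σ 𝕜} (h : F ∈ Rj 𝕜 σ j) :
    (D v ^ k) F ∈ Rj 𝕜 σ (j - k) := by
  induction k generalizing F j with
  | zero => simpa using h
  | succ k ih =>
    rw [pow_succ, Module.End.mul_apply]
    have := ih (D_hom (v := v) h)
    rwa [Nat.sub_sub, Nat.add_comm 1 k] at this

lemma Dpow_zero_hom {v : σ → 𝕜} {j k : ℕ} (hk : j < k) {F : MvPolynomial σ 𝕜}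
    (h : F ∈ Rj 𝕜 σ j) : (D v ^ k) F = 0 := by
  induction k generalizing F j with
  | zero => omega
  | succ k ih =>
    rw [pow_succ, Module.End.mul_apply]
    rcases Nat.eq_zero_or_pos j with hj | hj
    · subst hj; rw [D_zero_hom h, map_zero]
    · exact ih (by omega) (D_hom h)

/-- the homogeneous prime ideal of the point of projective space represented by `v`:
all polynomials vanishing on the line spanned by `v` -/
def pointIdeal (v : σ → 𝕜) : Ideal (MvPolynomial σ 𝕜) where
  carrier := {F | ∀ t : 𝕜, eval (t • v) F = 0}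
  add_mem' := by
    intro F G hF hG t; simp [hF t, hG t]
  zero_mem' := by intro t; simp
  smul_mem' := by
    intro c F hF t; simp [hF t]

lemma mem_pointIdeal {v : σ → 𝕜} {F : MvPolynomial σ 𝕜} :
    F ∈ pointIdeal v ↔ ∀ t : 𝕜, eval (t • v) F = 0 := Iff.rfl

/-- the restriction to the line, as a one-variable polynomial -/
def lineRes (v : σ → 𝕜) : MvPolynomial σ 𝕜 →ₐ[𝕜] Polynomial 𝕜 :=
  aeval (fun i => Polynomial.C (v i) * Polynomial.X)

lemma lineRes_eval (v : σ → 𝕜) (F : MvPolynomial σ 𝕜) (t : 𝕜) :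
    (lineRes v F).eval t = eval (t • v) F := by
  unfold lineRes
  induction F using MvPolynomial.induction_on with
  | C a => simp [← MvPolynomial.algebraMap_eq]
  | add p q hp hq => simp [hp, hq]
  | mul_X p i hp => simp [hp]; left; ring

lemma lineRes_deriv (v : σ → 𝕜) (F : MvPolynomial σ 𝕜) :
    Polynomial.derivative (lineRes v F) = lineRes v (D v F) := by
  induction F using MvPolynomial.induction_on with
  | C a =>
    have : D v (C a) = 0 := by rw [D_apply]; simp
    rw [this, map_zero]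
    have : lineRes v (C a) = Polynomial.C a := by
      rw [← MvPolynomial.algebraMap_eq, AlgHom.commutes]; rfl
    rw [this, Polynomial.derivative_C]
  | add p q hp hq => simp only [map_add, hp, hq]
  | mul_X p i hp =>
    rw [D_mul, map_mul, Polynomial.derivative_mul, hp, map_add, map_mul, map_mul]
    congr 1
    have h1 : lineRes v (X i) = Polynomial.C (v i) * Polynomial.X := by simp [lineRes]
    have h2 : D v (X i) = C (v i) := by
      rw [D_apply, Finset.sum_eq_single i]
      · rw [pderiv_X_self, smul_eq_C_mul, mul_one]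
      · intro j _ hj; rw [pderiv_X_of_ne hj.symm, smul_zero]
      · simp
    have h3 : lineRes v (C (v i)) = Polynomial.C (v i) := by
      rw [← MvPolynomial.algebraMap_eq, AlgHom.commutes]; rfl
    rw [h1, h2, h3, Polynomial.derivative_mul]; simp

lemma mem_pointIdeal_iff_lineRes {v : σ → 𝕜} {F : MvPolynomial σ 𝕜} :
    F ∈ pointIdeal v ↔ lineRes v F = 0 := by
  rw [mem_pointIdeal]
  constructor
  · intro h
    apply Polynomial.funext
    intro t; rw [lineRes_eval, h t, Polynomial.eval_zero]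
  · intro h t; rw [← lineRes_eval, h, Polynomial.eval_zero]

lemma D_mem_pointIdeal {v : σ → 𝕜} {F : MvPolynomial σ 𝕜} (h : F ∈ pointIdeal v) :
    D v F ∈ pointIdeal v := by
  rw [mem_pointIdeal_iff_lineRes] at *
  rw [← lineRes_deriv, h, Polynomial.derivative_zero]

lemma D_mem_pow {v : σ → 𝕜} (m : ℕ) {F : MvPolynomial σ 𝕜} (h : F ∈ pointIdeal v ^ m) :
    D v F ∈ pointIdeal v ^ m := by
  induction m generalizing F with
  | zero => simp
  | succ m ih =>
    rw [pow_succ] at h ⊢
    refine Submodule.mul_induction_on h ?_ ?_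
    · intro a ha b hb
      rw [D_mul]
      exact Ideal.add_mem _ (Ideal.mul_mem_mul (ih ha) hb)
        (Ideal.mul_mem_mul ha (D_mem_pointIdeal hb))
    · intro a b ha hb
      rw [map_add]; exact Ideal.add_mem _ ha hb

lemma Dpow_mem_pow {v : σ → 𝕜} (m k : ℕ) {F : MvPolynomial σ 𝕜} (h : F ∈ pointIdeal v ^ m) :
    (D v ^ k) F ∈ pointIdeal v ^ m := by
  induction k generalizing F with
  | zero => simpa using h
  | succ k ih => rw [pow_succ, Module.End.mul_apply]; exact ih (D_mem_pow m h)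

lemma pointIdeal_le {v : σ → 𝕜} : pointIdeal v ≤ idealOfVars σ 𝕜 := by
  intro F hF
  have h0 := hF 0
  have : F ∈ idealOfVars σ 𝕜 ^ 1 := by
    rw [mem_pow_idealOfVars_iff']
    intro x hx
    have hx0 : x = 0 := by
      have : x.degree = 0 := by omega
      exact (Finsupp.degree_eq_zero_iff x).1 this
    rw [hx0]
    have : eval (0 : σ → 𝕜) F = 0 := by simpa using h0
    rwa [MvPolynomial.eval_zero, constantCoeff_eq] at this
  simpa using this

lemma eq_zero_of_mem_pow {v : σ → 𝕜} {m j : ℕ} (hj : j < m) {F : MvPolynomial σ 𝕜}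
    (h : F ∈ pointIdeal v ^ m) (hF : F ∈ Rj 𝕜 σ j) : F = 0 := by
  have h1 : F ∈ idealOfVars σ 𝕜 ^ m := Ideal.pow_right_mono pointIdeal_le m h
  rw [mem_pow_idealOfVars_iff'] at h1
  ext x
  rw [coeff_zero]
  by_cases hx : x.degree = j
  · exact h1 x (by omega)
  · rw [mem_homogeneousSubmodule] at hF
    exact hF.coeff_eq_zero hx

lemma mem_pow_of_Dpow {v : σ → 𝕜} (hv : v ≠ 0) (d : ℕ) : ∀ (k j : ℕ) (F : MvPolynomial σ 𝕜),
    F ∈ Rj 𝕜 σ d → (D v ^ k) F = 0 → j + k ≤ d + 1 → F ∈ pointIdeal v ^ j := by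
  obtain ⟨i0, hi0⟩ : ∃ i, v i ≠ 0 := by
    by_contra hcon
    push Not at hcon
    exact hv (funext hcon)
  induction d with
  | zero =>
    intro k j F hF hk hjk
    rcases Nat.eq_zero_or_pos j with hj | hj
    · subst hj; simp
    · have hk0 : k = 0 := by omega
      subst hk0
      have : F = 0 := by simpa using hk
      rw [this]; exact Ideal.zero_mem _
  | succ d ih =>
    intro k j F hF hk hjk
    rcases Nat.eq_zero_or_pos j with hj | hj
    · subst hj; simp
    rcases Nat.eq_zero_or_pos k with hk0 | hk0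
    · subst hk0
      have : F = 0 := by simpa using hk
      rw [this]; exact Ideal.zero_mem _
    obtain ⟨j', rfl⟩ : ∃ j', j = j' + 1 := ⟨j - 1, by omega⟩
    obtain ⟨k', rfl⟩ : ∃ k', k = k' + 1 := ⟨k - 1, by omega⟩
    have hE : ∑ i : σ, X i * pderiv i F = (d + 1) • F := by
      rw [mem_homogeneousSubmodule] at hF
      exact hF.sum_X_mul_pderiv
    have h1 : ∀ i, (X i - C (v i * (v i0)⁻¹) * X i0) * pderiv i F ∈ pointIdeal v ^ (j' + 1) := by
      intro i
      rw [pow_succ, mul_comm]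
      refine Ideal.mul_mem_mul ?_ ?_
      · intro t
        simp only [map_sub, eval_X, map_mul, eval_C, Pi.smul_apply, smul_eq_mul]
        field_simp
        ring
      · refine ih (k' + 1) j' _ (by simpa using pderiv_hom (i := i) hF) ?_ (by omega)
        rw [← pderiv_Dpow, hk, map_zero]
    have h2 : D v F ∈ pointIdeal v ^ (j' + 1) := by
      refine ih k' (j' + 1) _ (by simpa using D_hom (v := v) hF) ?_ (by omega)
      rw [← Module.End.mul_apply, ← pow_succ, hk]
    have h3 : (d + 1) • F = ∑ i, (X i - C (v i * (v i0)⁻¹) * X i0) * pderiv i F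
        + C ((v i0)⁻¹) * X i0 * D v F := by
      rw [← hE, D_apply, Finset.mul_sum, ← Finset.sum_add_distrib]
      refine Finset.sum_congr rfl fun i _ => ?_
      rw [smul_eq_C_mul, C_mul]; ring
    have h4 : (d + 1) • F ∈ pointIdeal v ^ (j' + 1) := by
      rw [h3]
      exact Ideal.add_mem _ (Ideal.sum_mem _ fun i _ => h1 i) (Ideal.mul_mem_left _ _ h2)
    have h5 : F = C (((d : 𝕜) + 1)⁻¹) * ((d + 1) • F) := by
      rw [nsmul_eq_mul, ← mul_assoc]
      have : (C (((d : 𝕜) + 1)⁻¹) * ((d + 1 : ℕ) : MvPolynomial σ 𝕜)) = 1 := by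
        have h6 : ((d + 1 : ℕ) : MvPolynomial σ 𝕜) = C ((d : 𝕜) + 1) := by
          push_cast; simp
        rw [h6, ← C_mul, inv_mul_cancel₀ (Nat.cast_add_one_ne_zero d), C_1]
      rw [this, one_mul]
    rw [h5]
    exact Ideal.mul_mem_left _ _ h4

/-- a form of degree `d` lies in the `m`-th power of the ideal of the point `v` iff it is
killed by `D v ^ (d + 1 - m)` -/
theorem mem_pow_iff {v : σ → 𝕜} (hv : v ≠ 0) {d m : ℕ} (hm : m ≤ d + 1)
    {F : MvPolynomial σ 𝕜} (hF : F ∈ Rj 𝕜 σ d) :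
    F ∈ pointIdeal v ^ m ↔ (D v ^ (d + 1 - m)) F = 0 := by
  constructor
  · intro h
    rcases Nat.eq_zero_or_pos m with hm0 | hm0
    · subst hm0
      exact Dpow_zero_hom (by omega) hF
    · refine eq_zero_of_mem_pow (v := v) (m := m) (j := d - (d + 1 - m)) (by omega)
        (Dpow_mem_pow m _ h) (Dpow_hom _ hF)
  · intro h
    exact mem_pow_of_Dpow hv d _ m F hF h (by omega)

end
end H350MG
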