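import Mathlib
import Pool.Agent.H350R3.MG.Ops

set_option linter.unusedSectionVars false

namespace H350MG
open MvPolynomial

noncomputable section

variable {𝕜 : Type} [Field 𝕜] [CharZero 𝕜] {σ : Type*} [Fintype σ] [DecidableEq σ]

lemma finrank_Rj (j : ℕ) : Module.finrank 𝕜 (Rj 𝕜 σ j) = (Fintype.card σ + j - 1).choose j := by
  have h1 : Rj 𝕜 σ j = restrictSupport 𝕜 {d : σ →₀ ℕ | d.degree = j} :=
    homogeneousSubmodule_eq_finsupp_supported σ 𝕜 j
  rw [h1, Module.finrank_eq_nat_card_basis (basisRestrictSupport 𝕜 _)]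
  rw [← Finset.card_univ (α := σ), ← Finset.card_finsuppAntidiag_nat_eq_choose]
  have h2 : {d : σ →₀ ℕ | d.degree = j} = ↑((Finset.univ : Finset σ).finsuppAntidiag j) := by
    ext d
    simp [Finsupp.degree_eq_sum]
  rw [h2, Nat.card_coe_set_eq, Set.ncard_coe_finset]

instance finRj (j : ℕ) : FiniteDimensional 𝕜 (Rj 𝕜 σ j) :=
  Module.Finite.iff_fg.2 (homogeneousSubmodule_fg σ 𝕜 j)

/-- forms of degree `j` killed by all the constraints of the list -/
def K (l : List ((σ → 𝕜) × ℕ)) (j : ℕ) : Submodule 𝕜 (MvPolynomial σ 𝕜) where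
  carrier := {F | F ∈ Rj 𝕜 σ j ∧ ∀ c ∈ l, (D c.1 ^ c.2) F = 0}
  add_mem' := by
    rintro F G ⟨hF, hF'⟩ ⟨hG, hG'⟩
    exact ⟨Submodule.add_mem _ hF hG, fun c hc => by rw [map_add, hF' c hc, hG' c hc, add_zero]⟩
  zero_mem' := ⟨Submodule.zero_mem _, fun c _ => map_zero _⟩
  smul_mem' := by
    rintro a F ⟨hF, hF'⟩
    exact ⟨Submodule.smul_mem _ _ hF, fun c hc => by rw [map_smul, hF' c hc, smul_zero]⟩

lemma mem_K {l : List ((σ → 𝕜) × ℕ)} {j : ℕ} {F : MvPolynomial σ 𝕜} :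
    F ∈ K l j ↔ F ∈ Rj 𝕜 σ j ∧ ∀ c ∈ l, (D c.1 ^ c.2) F = 0 := Iff.rfl

lemma K_le (l : List ((σ → 𝕜) × ℕ)) (j : ℕ) : K l j ≤ Rj 𝕜 σ j := fun _ h => h.1

instance finK (l : List ((σ → 𝕜) × ℕ)) (j : ℕ) : FiniteDimensional 𝕜 (K l j) :=
  Submodule.finiteDimensional_of_le (K_le l j)

lemma K_nil (j : ℕ) : K ([] : List ((σ → 𝕜) × ℕ)) j = Rj 𝕜 σ j := by
  ext F; simp [mem_K]

lemma K_congr {l l' : List ((σ → 𝕜) × ℕ)} (h : ∀ c, c ∈ l ↔ c ∈ l') (j : ℕ) :
    K l j = K l' j := by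
  ext F; simp only [mem_K, h]

lemma K_cons_le (c : (σ → 𝕜) × ℕ) (l : List ((σ → 𝕜) × ℕ)) (j : ℕ) : K (c :: l) j ≤ K l j :=
  fun _ h => ⟨h.1, fun c' hc' => h.2 c' (List.mem_cons_of_mem _ hc')⟩

/-- expected dimensions -/
def E (g : ℕ → ℤ) : List ℕ → ℕ → ℤ
  | [], j => g j
  | δ :: l, j => E g l j - if δ ≤ j then E g l (j - δ) else 0

lemma E_perm (g : ℕ → ℤ) {l l' : List ℕ} (h : l.Perm l') : ∀ j, E g l j = E g l' j := by
  induction h with
  | nil => intro j; rfl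
  | cons x _ ih => intro j; simp only [E, ih]
  | swap x y l =>
    intro j
    simp only [E]
    by_cases hx : x ≤ j <;> by_cases hy : y ≤ j
    · by_cases hxy : x + y ≤ j
      · have h1 : y ≤ j - x := by omega
        have h2 : x ≤ j - y := by omega
        simp only [hx, hy, h1, h2, if_true]
        rw [Nat.sub_sub, Nat.sub_sub, Nat.add_comm x y]; ring
      · have h1 : ¬ y ≤ j - x := by omega
        have h2 : ¬ x ≤ j - y := by omega
        simp only [hx, hy, h1, h2, if_true, if_false]; ring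
    · have h1 : ¬ y ≤ j - x := by omega
      simp only [hx, hy, h1, if_true, if_false]; ring
    · have h1 : ¬ x ≤ j - y := by omega
      simp only [hx, hy, h1, if_true, if_false]; ring
    · simp only [hx, hy, if_false]
  | trans _ _ ih1 ih2 => intro j; rw [ih1, ih2]

/-- the image of the constraint on `K l j` -/
def imK (c : (σ → 𝕜) × ℕ) (l : List ((σ → 𝕜) × ℕ)) (j : ℕ) : Submodule 𝕜 (MvPolynomial σ 𝕜) :=
  (K l j).map (D c.1 ^ c.2)

lemma rank_nullity (c : (σ → 𝕜) × ℕ) (l : List ((σ → 𝕜) × ℕ)) (j : ℕ) :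
    Module.finrank 𝕜 (K l j) = Module.finrank 𝕜 (K (c :: l) j)
      + Module.finrank 𝕜 (imK c l j) := by
  let T : K l j →ₗ[𝕜] MvPolynomial σ 𝕜 := (D c.1 ^ c.2).domRestrict (K l j)
  have h1 := LinearMap.finrank_range_add_finrank_ker T
  have h2 : LinearMap.range T = imK c l j := by
    ext F
    simp only [LinearMap.mem_range, imK, Submodule.mem_map, T, LinearMap.domRestrict_apply]
    constructor
    · rintro ⟨y, rfl⟩; exact ⟨y, y.2, rfl⟩
    · rintro ⟨y, hy, rfl⟩; exact ⟨⟨y, hy⟩, rfl⟩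
  have h3 : LinearMap.ker T = Submodule.comap (K l j).subtype (K (c :: l) j) := by
    ext F
    simp only [LinearMap.mem_ker, T, LinearMap.domRestrict_apply, Submodule.mem_comap,
      Submodule.subtype_apply, mem_K, List.mem_cons]
    constructor
    · intro h
      refine ⟨F.2.1, ?_⟩
      rintro c' (rfl | hc')
      · exact h
      · exact F.2.2 c' hc'
    · intro h; exact h.2 c (Or.inl rfl)
  rw [h2, h3, LinearEquiv.finrank_eq (Submodule.comapSubtypeEquivOfLe (K_cons_le c l j))] at h1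
  omega

lemma imK_le (c : (σ → 𝕜) × ℕ) (l : List ((σ → 𝕜) × ℕ)) (j : ℕ) :
    imK c l j ≤ K l (j - c.2) := by
  rintro _ ⟨F, hF, rfl⟩
  refine ⟨Dpow_hom _ hF.1, ?_⟩
  intro c' hc'
  rw [Dpow_comm_apply, hF.2 c' hc', map_zero]

lemma imK_bot (c : (σ → 𝕜) × ℕ) (l : List ((σ → 𝕜) × ℕ)) (j : ℕ) (h : ¬ c.2 ≤ j) :
    imK c l j = ⊥ := by
  rw [eq_bot_iff]
  rintro _ ⟨F, hF, rfl⟩
  exact Dpow_zero_hom (by omega) hF.1

lemma finrank_imK_le (c : (σ → 𝕜) × ℕ) (l : List ((σ → 𝕜) × ℕ)) (j : ℕ) :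
    (Module.finrank 𝕜 (imK c l j) : ℤ) ≤
      if c.2 ≤ j then (Module.finrank 𝕜 (K l (j - c.2)) : ℤ) else 0 := by
  split_ifs with h
  · exact_mod_cast Submodule.finrank_mono (imK_le c l j)
  · rw [imK_bot c l j h]; simp

/-- the number of the forms of degree `j` -/
def gj (σ : Type*) [Fintype σ] (j : ℕ) : ℤ := ((Fintype.card σ + j - 1).choose j : ℕ)

/-- upper bound by the expected dimension in all degrees up to `d` -/
def UB (d : ℕ) (l : List ((σ → 𝕜) × ℕ)) : Prop :=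
  ∀ j ≤ d, (Module.finrank 𝕜 (K l j) : ℤ) ≤ E (gj σ) (l.map Prod.snd) j

/-- equality with the expected dimension in all degrees up to `d` -/
def EQ (d : ℕ) (l : List ((σ → 𝕜) × ℕ)) : Prop :=
  ∀ j ≤ d, (Module.finrank 𝕜 (K l j) : ℤ) = E (gj σ) (l.map Prod.snd) j

lemma EQ_nil (d : ℕ) : EQ d ([] : List ((σ → 𝕜) × ℕ)) := by
  intro j _
  simp only [List.map_nil, E, gj]
  rw [K_nil, finrank_Rj]

lemma UB_of_EQ {d : ℕ} {l : List ((σ → 𝕜) × ℕ)} (h : EQ d l) : UB d l :=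
  fun j hj => (h j hj).le

lemma UB_tail {d : ℕ} {c : (σ → 𝕜) × ℕ} (hc : 0 < c.2) {l : List ((σ → 𝕜) × ℕ)}
    (h : UB d (c :: l)) : UB d l := by
  intro j
  induction j using Nat.strong_induction_on with
  | _ j ih =>
    intro hj
    have h1 := rank_nullity c l j
    have h2 := finrank_imK_le c l j
    have h3 := h j hj
    simp only [List.map_cons, E] at h3
    have h4 : (Module.finrank 𝕜 (K l j) : ℤ) = Module.finrank 𝕜 (K (c :: l) j)
      + Module.finrank 𝕜 (imK c l j) := by exact_mod_cast h1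
    by_cases hcj : c.2 ≤ j
    · have h5 := ih (j - c.2) (by omega) (by omega)
      simp only [hcj, if_true] at h2 h3
      linarith
    · simp only [hcj, if_false] at h2 h3
      linarith

lemma EQ_cons_of_UB {d : ℕ} {c : (σ → 𝕜) × ℕ} {l : List ((σ → 𝕜) × ℕ)}
    (h : UB d (c :: l)) (hl : EQ d l) : EQ d (c :: l) := by
  intro j hj
  refine le_antisymm (h j hj) ?_
  have h1 := rank_nullity c l j
  have h2 := finrank_imK_le c l j
  have h3 := hl j hj
  simp only [List.map_cons, E]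
  have h4 : (Module.finrank 𝕜 (K l j) : ℤ) = Module.finrank 𝕜 (K (c :: l) j)
      + Module.finrank 𝕜 (imK c l j) := by exact_mod_cast h1
  by_cases hcj : c.2 ≤ j
  · have h5 := hl (j - c.2) (by omega)
    simp only [hcj, if_true] at h2 ⊢
    linarith
  · simp only [hcj, if_false] at h2 ⊢
    linarith

lemma EQ_of_UB {d : ℕ} {l : List ((σ → 𝕜) × ℕ)} (hpos : ∀ c ∈ l, 0 < c.2) (h : UB d l) :
    EQ d l := by
  induction l with
  | nil => exact EQ_nil d
  | cons c l ih =>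
    exact EQ_cons_of_UB h (ih (fun c' hc' => hpos c' (List.mem_cons_of_mem _ hc'))
      (UB_tail (hpos c (List.mem_cons_self ..)) h))

lemma EQ_cons_of_surj {d : ℕ} {c : (σ → 𝕜) × ℕ} {l : List ((σ → 𝕜) × ℕ)} (hl : EQ d l)
    (hs : ∀ j, j + c.2 ≤ d → ∀ H ∈ K l j, ∃ F ∈ K l (j + c.2), (D c.1 ^ c.2) F = H) :
    EQ d (c :: l) := by
  intro j hj
  have h1 := rank_nullity c l j
  have h3 := hl j hj
  simp only [List.map_cons, E]
  have h4 : (Module.finrank 𝕜 (K l j) : ℤ) = Module.finrank 𝕜 (K (c :: l) j)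
      + Module.finrank 𝕜 (imK c l j) := by exact_mod_cast h1
  by_cases hcj : c.2 ≤ j
  · have h5 := hl (j - c.2) (by omega)
    have h6 : imK c l j = K l (j - c.2) := by
      refine le_antisymm (imK_le c l j) ?_
      intro H hH
      obtain ⟨F, hF, rfl⟩ := hs (j - c.2) (by omega) H hH
      rw [Nat.sub_add_cancel hcj] at hF
      exact ⟨F, hF, rfl⟩
    simp only [hcj, if_true]
    rw [h6] at h4
    linarith
  · rw [imK_bot c l j hcj] at h4
    simp only [hcj, if_false]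
    simp only [finrank_bot, Nat.cast_zero, add_zero] at h4
    linarith

lemma UB_append_right {d : ℕ} {l₁ l₂ : List ((σ → 𝕜) × ℕ)} (hpos : ∀ c ∈ l₁, 0 < c.2)
    (h : UB d (l₁ ++ l₂)) : UB d l₂ := by
  induction l₁ with
  | nil => simpa using h
  | cons c l ih =>
    exact ih (fun c' hc' => hpos c' (List.mem_cons_of_mem _ hc'))
      (UB_tail (hpos c (List.mem_cons_self ..)) h)

lemma UB_perm {d : ℕ} {l l' : List ((σ → 𝕜) × ℕ)} (hp : l.Perm l') (h : UB d l) : UB d l' := by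
  intro j hj
  rw [← E_perm _ (hp.map Prod.snd) j, ← K_congr (fun c => hp.mem_iff) j]
  exact h j hj

end
end H350MG
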