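import Mathlib
import Pool.Agent.H350R3.MG.Num

set_option linter.unusedSectionVars false

namespace H350MG
open MvPolynomial

noncomputable section

variable {𝕜 : Type} [Field 𝕜] [CharZero 𝕜] {σ : Type*} [Fintype σ] [DecidableEq σ]

/-- exponent vector of a squarefree monomial -/
def ind (β : Finset σ) : σ →₀ ℕ := Finsupp.equivFunOnFinite.symm (fun i => if i ∈ β then 1 else 0)

lemma ind_apply (β : Finset σ) (i : σ) : ind β i = if i ∈ β then 1 else 0 := rfl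

lemma ind_inj {β γ : Finset σ} (h : ind β = ind γ) : β = γ := by
  ext i
  have := DFunLike.congr_fun h i
  rw [ind_apply, ind_apply] at this
  by_cases h1 : i ∈ β <;> by_cases h2 : i ∈ γ <;> simp_all

lemma ind_degree (β : Finset σ) : (ind β).degree = β.card := by
  rw [Finsupp.degree_eq_sum]
  simp [ind_apply]

/-- the squarefree monomial -/
def xm (𝕜 : Type) [Field 𝕜] {σ : Type*} [Fintype σ] [DecidableEq σ] (β : Finset σ) : MvPolynomial σ 𝕜 := monomial (ind β) 1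

lemma coeff_xm (β γ : Finset σ) : coeff (ind γ) (xm 𝕜 β) = if β = γ then 1 else 0 := by
  unfold xm
  rw [coeff_monomial]
  by_cases h : β = γ
  · simp [h]
  · rw [if_neg h, if_neg fun h' => h (ind_inj h')]

lemma xm_hom (β : Finset σ) : xm 𝕜 β ∈ Rj 𝕜 σ β.card := by
  rw [mem_homogeneousSubmodule]
  exact isHomogeneous_monomial _ (ind_degree β)

lemma xm_mul {α γ : Finset σ} (h : Disjoint α γ) : xm 𝕜 α * xm 𝕜 γ = xm 𝕜 (α ∪ γ) := by
  unfold xm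
  rw [monomial_mul, mul_one]
  have : ind α + ind γ = ind (α ∪ γ) := by
    ext i
    rw [Finsupp.add_apply, ind_apply, ind_apply, ind_apply]
    by_cases h1 : i ∈ α
    · have h2 : i ∉ γ := Finset.disjoint_left.1 h h1
      simp [h1, h2]
    · by_cases h2 : i ∈ γ <;> simp [h1, h2]
  rw [this]

lemma pderiv_xm (i : σ) (β : Finset σ) :
    pderiv i (xm 𝕜 β) = if i ∈ β then xm 𝕜 (β.erase i) else 0 := by
  unfold xm
  rw [pderiv_monomial, ind_apply]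
  by_cases h : i ∈ β
  · rw [if_pos h, if_pos h]
    have : ind β - Finsupp.single i 1 = ind (β.erase i) := by
      ext k
      rw [Finsupp.tsub_apply, ind_apply, ind_apply, Finsupp.single_apply]
      by_cases hk : i = k
      · subst hk; simp [h]
      · simp [hk, Ne.symm hk]
    rw [this]; simp
  · rw [if_neg h, if_neg h]; simp

/-- indicator vector of a block -/
def bl (𝕜 : Type) [Field 𝕜] {σ : Type*} [DecidableEq σ] (S : Finset σ) : σ → 𝕜 := fun i => if i ∈ S then 1 else 0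

lemma D_xm (S β : Finset σ) : D (bl 𝕜 S) (xm 𝕜 β) = ∑ i ∈ S ∩ β, xm 𝕜 (β.erase i) := by
  rw [D_apply, ← Finset.sum_subset (Finset.subset_univ (S ∩ β))]
  · refine Finset.sum_congr rfl fun i hi => ?_
    rw [Finset.mem_inter] at hi
    rw [pderiv_xm, if_pos hi.2, bl, if_pos hi.1, one_smul]
  · intro i _ hi
    rw [Finset.mem_inter, not_and_or] at hi
    rcases hi with hi | hi
    · rw [bl, if_neg hi, zero_smul]
    · rw [pderiv_xm, if_neg hi, smul_zero]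

/-- span of the squarefree monomials indexed by a family -/
def Sp (𝕜 : Type) [Field 𝕜] {σ : Type*} [Fintype σ] [DecidableEq σ] (P : Set (Finset σ)) : Submodule 𝕜 (MvPolynomial σ 𝕜) := Submodule.span 𝕜 (xm 𝕜 '' P)

lemma xm_mem_Sp {P : Set (Finset σ)} {β : Finset σ} (h : β ∈ P) : xm 𝕜 β ∈ Sp 𝕜 P :=
  Submodule.subset_span ⟨β, h, rfl⟩

lemma Sp_mono {P Q : Set (Finset σ)} (h : P ⊆ Q) : Sp 𝕜 P ≤ Sp 𝕜 Q :=
  Submodule.span_mono (Set.image_mono h)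

lemma Sp_empty : Sp 𝕜 (∅ : Set (Finset σ)) = ⊥ := by simp [Sp]

lemma map_mem_of_Sp {P : Set (Finset σ)} {N : Type*} [AddCommGroup N] [Module 𝕜 N]
    (f : MvPolynomial σ 𝕜 →ₗ[𝕜] N) (Q : Submodule 𝕜 N) (h : ∀ β ∈ P, f (xm 𝕜 β) ∈ Q)
    {F : MvPolynomial σ 𝕜} (hF : F ∈ Sp 𝕜 P) : f F ∈ Q := by
  have : Sp 𝕜 P ≤ Q.comap f := by
    unfold Sp
    rw [Submodule.span_le]
    rintro _ ⟨β, hβ, rfl⟩
    exact h β hβ
  exact this hF

lemma coeff_mem_of_Sp {P : Set (Finset σ)} {F : MvPolynomial σ 𝕜} (hF : F ∈ Sp 𝕜 P)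
    {β : Finset σ} (h : coeff (ind β) F ≠ 0) : β ∈ P := by
  by_contra hβ
  apply h
  have := map_mem_of_Sp (P := P) (lcoeff 𝕜 (ind β)) ⊥ (by
    intro γ hγ
    rw [Submodule.mem_bot, lcoeff_apply, coeff_xm, if_neg]
    rintro rfl; exact hβ hγ) hF
  simpa using this

lemma Sp_decomp {P : Set (Finset σ)} {F : MvPolynomial σ 𝕜} (hF : F ∈ Sp 𝕜 P) :
    F = ∑ β : Finset σ, coeff (ind β) F • xm 𝕜 β := by
  have h1 := map_mem_of_Sp (P := P)
    (LinearMap.id - ∑ β : Finset σ, (lcoeff 𝕜 (ind β)).smulRight (xm 𝕜 β)) ⊥ (by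
    intro γ hγ
    rw [Submodule.mem_bot]
    simp only [LinearMap.sub_apply, LinearMap.id_apply, LinearMap.sum_apply,
      LinearMap.smulRight_apply, lcoeff_apply, coeff_xm]
    rw [sub_eq_zero, Finset.sum_eq_single γ]
    · simp
    · intro b _ hb; rw [if_neg hb.symm, zero_smul]
    · simp) hF
  rw [Submodule.mem_bot] at h1
  simp only [LinearMap.sub_apply, LinearMap.id_apply, LinearMap.sum_apply,
      LinearMap.smulRight_apply, lcoeff_apply] at h1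
  exact sub_eq_zero.1 h1

lemma mem_Sp_of_coeff {P Q : Set (Finset σ)} {F : MvPolynomial σ 𝕜} (hF : F ∈ Sp 𝕜 P)
    (h : ∀ β, coeff (ind β) F ≠ 0 → β ∈ Q) : F ∈ Sp 𝕜 Q := by
  rw [Sp_decomp hF]
  refine Submodule.sum_mem _ fun β _ => ?_
  by_cases hβ : coeff (ind β) F = 0
  · rw [hβ, zero_smul]; exact Submodule.zero_mem _
  · exact Submodule.smul_mem _ _ (xm_mem_Sp (h β hβ))

lemma Sp_mul {P Q U : Set (Finset σ)} (h : ∀ α ∈ P, ∀ γ ∈ Q, Disjoint α γ ∧ α ∪ γ ∈ U)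
    {F G : MvPolynomial σ 𝕜} (hF : F ∈ Sp 𝕜 P) (hG : G ∈ Sp 𝕜 Q) : F * G ∈ Sp 𝕜 U := by
  refine map_mem_of_Sp (LinearMap.mulRight 𝕜 G) (Sp 𝕜 U) ?_ hF
  intro α hα
  rw [LinearMap.mulRight_apply]
  refine map_mem_of_Sp (LinearMap.mulLeft 𝕜 (xm 𝕜 α)) (Sp 𝕜 U) ?_ hG
  intro γ hγ
  rw [LinearMap.mulLeft_apply, xm_mul (h α hα γ hγ).1]
  exact xm_mem_Sp (h α hα γ hγ).2

lemma Dpow_xm (S : Finset σ) (e : ℕ) : ∀ β : Finset σ,
    (D (bl 𝕜 S) ^ e) (xm 𝕜 β) ∈ Sp 𝕜 {γ | γ ⊆ β ∧ γ.card + e = β.card ∧ e ≤ (S ∩ β).card} := by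
  induction e with
  | zero => intro β; simpa using xm_mem_Sp (P := {γ | γ ⊆ β ∧ γ.card + 0 = β.card ∧ 0 ≤ (S ∩ β).card}) (by simp)
  | succ e ih =>
    intro β
    rw [pow_succ, Module.End.mul_apply, D_xm, map_sum]
    refine Submodule.sum_mem _ fun i hi => ?_
    rw [Finset.mem_inter] at hi
    refine Sp_mono ?_ (ih (β.erase i))
    rintro γ ⟨h1, h2, h3⟩
    have h4 : (β.erase i).card + 1 = β.card := Finset.card_erase_add_one hi.2
    have h5 : (S ∩ β.erase i).card + 1 = (S ∩ β).card := by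
      rw [Finset.inter_erase]
      exact Finset.card_erase_add_one (Finset.mem_inter.2 hi)
    exact ⟨h1.trans (Finset.erase_subset _ _), by omega, by omega⟩

lemma Dpow_Sp (S : Finset σ) (e : ℕ) {P : Set (Finset σ)} {F : MvPolynomial σ 𝕜}
    (hF : F ∈ Sp 𝕜 P) :
    (D (bl 𝕜 S) ^ e) F ∈ Sp 𝕜 {γ | ∃ β ∈ P, γ ⊆ β ∧ γ.card + e = β.card ∧ e ≤ (S ∩ β).card} := by
  refine map_mem_of_Sp _ _ ?_ hF
  intro β hβ
  refine Sp_mono ?_ (Dpow_xm S e β)
  rintro γ ⟨h1, h2, h3⟩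
  exact ⟨β, hβ, h1, h2, h3⟩

lemma Dpow_Sp_zero (S : Finset σ) {e : ℕ} {P : Set (Finset σ)}
    (hP : ∀ β ∈ P, (S ∩ β).card < e) {F : MvPolynomial σ 𝕜} (hF : F ∈ Sp 𝕜 P) :
    (D (bl 𝕜 S) ^ e) F = 0 := by
  have h := Dpow_Sp S e hF
  have h2 : {γ | ∃ β ∈ P, γ ⊆ β ∧ γ.card + e = β.card ∧ e ≤ (S ∩ β).card} = (∅ : Set (Finset σ)) := by
    rw [Set.eq_empty_iff_forall_notMem]
    rintro γ ⟨β, hβ, _, _, h3⟩
    have := hP β hβ
    omega
  rw [h2, Sp_empty] at h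
  simpa using h

end
end H350MG
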