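import Mathlib
import Pool.Agent.H350R3.MG.Sq

set_option linter.unusedSectionVars false

namespace H350MG
open MvPolynomial

noncomputable section

variable {𝕜 : Type} [Field 𝕜] [CharZero 𝕜] {σ : Type*} [Fintype σ] [DecidableEq σ]

/-- normalised elementary symmetric polynomials in the variables of `T` -/
def Es (𝕜 : Type) [Field 𝕜] {σ : Type*} [Fintype σ] [DecidableEq σ] (T : Finset σ) (a : ℕ) : MvPolynomial σ 𝕜 :=
  (((T.card - a).factorial : 𝕜) / (T.card.factorial : 𝕜)) • ∑ α ∈ T.powersetCard a, xm 𝕜 α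

lemma xm_empty : xm 𝕜 (∅ : Finset σ) = 1 := by
  unfold xm
  have : ind (∅ : Finset σ) = 0 := by ext i; simp [ind_apply]
  rw [this]; rfl

lemma Es_zero (T : Finset σ) : Es 𝕜 T 0 = 1 := by
  unfold Es
  rw [Finset.powersetCard_zero, Finset.sum_singleton, xm_empty, Nat.sub_zero, div_self, one_smul]
  exact_mod_cast Nat.factorial_ne_zero _

lemma Es_mem (T : Finset σ) (a : ℕ) : Es 𝕜 T a ∈ Sp 𝕜 {α | α ⊆ T ∧ α.card = a} := by
  refine Submodule.smul_mem _ _ (Submodule.sum_mem _ fun α hα => xm_mem_Sp ?_)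
  exact Finset.mem_powersetCard.1 hα

lemma D_Es_disj {S T : Finset σ} (h : Disjoint S T) (a : ℕ) : D (bl 𝕜 S) (Es 𝕜 T a) = 0 := by
  unfold Es
  rw [map_smul, map_sum, Finset.sum_eq_zero, smul_zero]
  intro α hα
  rw [D_xm]
  have : S ∩ α = ∅ := by
    rw [← Finset.disjoint_iff_inter_eq_empty]
    exact h.mono_right (Finset.mem_powersetCard.1 hα).1
  rw [this, Finset.sum_empty]

lemma D_Es {S T : Finset σ} (hTS : T ⊆ S) {a : ℕ} (ha : a + 1 ≤ T.card) :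
    D (bl 𝕜 S) (Es 𝕜 T (a + 1)) = Es 𝕜 T a := by
  unfold Es
  rw [map_smul, map_sum]
  have h1 : ∑ α ∈ T.powersetCard (a + 1), D (bl 𝕜 S) (xm 𝕜 α)
      = ∑ α ∈ T.powersetCard (a + 1), ∑ i ∈ α, xm 𝕜 (α.erase i) := by
    refine Finset.sum_congr rfl fun α hα => ?_
    rw [D_xm, Finset.inter_eq_right.2 ((Finset.mem_powersetCard.1 hα).1.trans hTS)]
  have h2 : ∑ α ∈ T.powersetCard (a + 1), ∑ i ∈ α, xm 𝕜 (α.erase i)
      = ∑ α ∈ T.powersetCard a, ∑ _i ∈ T \ α, (xm 𝕜 α : MvPolynomial σ 𝕜) := by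
    rw [Finset.sum_sigma', Finset.sum_sigma']
    refine Finset.sum_bij' (fun p _ => ⟨p.1.erase p.2, p.2⟩) (fun p _ => ⟨insert p.2 p.1, p.2⟩)
      ?_ ?_ ?_ ?_ ?_
    · rintro ⟨α, i⟩ hp
      simp only [Finset.mem_sigma, Finset.mem_powersetCard, Finset.mem_sdiff] at hp ⊢
      obtain ⟨⟨h3, h4⟩, h5⟩ := hp
      refine ⟨⟨(Finset.erase_subset _ _).trans h3, ?_⟩, h3 h5, Finset.notMem_erase _ _⟩
      rw [Finset.card_erase_of_mem h5, h4]; rfl
    · rintro ⟨α, i⟩ hp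
      simp only [Finset.mem_sigma, Finset.mem_powersetCard, Finset.mem_sdiff] at hp ⊢
      obtain ⟨⟨h3, h4⟩, h5, h6⟩ := hp
      refine ⟨⟨Finset.insert_subset h5 h3, ?_⟩, Finset.mem_insert_self _ _⟩
      rw [Finset.card_insert_of_notMem h6, h4]
    · rintro ⟨α, i⟩ hp
      simp only [Finset.mem_sigma] at hp
      simp only [Finset.insert_erase hp.2]
    · rintro ⟨α, i⟩ hp
      simp only [Finset.mem_sigma, Finset.mem_sdiff] at hp
      simp only [Finset.erase_insert hp.2.2]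
    · rintro ⟨α, i⟩ hp
      rfl
  have h3 : ∑ α ∈ T.powersetCard a, ∑ _i ∈ T \ α, (xm 𝕜 α : MvPolynomial σ 𝕜)
      = ((T.card - a : ℕ) : 𝕜) • ∑ α ∈ T.powersetCard a, xm 𝕜 α := by
    rw [Finset.smul_sum]
    refine Finset.sum_congr rfl fun α hα => ?_
    rw [Finset.mem_powersetCard] at hα
    rw [Finset.sum_const, Finset.card_sdiff_of_subset hα.1, hα.2, Nat.cast_smul_eq_nsmul]
  rw [h1, h2, h3, smul_smul]
  congr 1
  have h4 : (T.card - a).factorial = (T.card - a) * (T.card - (a + 1)).factorial := by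
    obtain ⟨k, hk⟩ : ∃ k, T.card - a = k + 1 := ⟨T.card - a - 1, by omega⟩
    have hk' : T.card - (a + 1) = k := by omega
    rw [hk, hk', Nat.factorial_succ]
  rw [h4]; push_cast; ring

/-- the coefficients in the lifting formula -/
def cf (b s : ℕ) : ℕ := if s = 0 then 1 else (b + s - 1).choose s

lemma cf_zero (b : ℕ) : cf b 0 = 1 := by simp [cf]

lemma cf_zero_succ (s : ℕ) : cf 0 (s + 1) = 0 := by
  simp [cf]

lemma cf_succ (b s : ℕ) : cf (b + 1) (s + 1) = cf (b + 1) s + cf b (s + 1) := by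
  unfold cf
  rcases s with _ | s
  · simp; omega
  · simp only [Nat.add_eq_zero_iff, one_ne_zero, and_false, if_false]
    have h1 : b + 1 + (s + 1 + 1) - 1 = (b + s + 1) + 1 := by omega
    have h2 : b + 1 + (s + 1) - 1 = b + s + 1 := by omega
    have h3 : b + (s + 1 + 1) - 1 = b + s + 1 := by omega
    rw [h1, h2, h3, Nat.choose_succ_succ]

/-- the lifting formula -/
def Gl (S T : Finset σ) (i : ℕ) (H : MvPolynomial σ 𝕜) (b : ℕ) : MvPolynomial σ 𝕜 :=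
  ∑ s ∈ Finset.range (i + 1), ((-1 : 𝕜) ^ s * (cf b s : 𝕜)) • (Es 𝕜 T (b + s) * (D (bl 𝕜 S) ^ s) H)

lemma Gl_zero (S T : Finset σ) (i : ℕ) (H : MvPolynomial σ 𝕜) : Gl S T i H 0 = H := by
  unfold Gl
  rw [Finset.sum_eq_single 0]
  · simp [cf_zero, Es_zero]
  · intro s _ hs
    obtain ⟨s', rfl⟩ := Nat.exists_eq_succ_of_ne_zero hs
    rw [cf_zero_succ]; simp
  · simp

lemma D_Gl {S T : Finset σ} (hTS : T ⊆ S) {i : ℕ} {H : MvPolynomial σ 𝕜}
    (hH : (D (bl 𝕜 S) ^ (i + 1)) H = 0) {b : ℕ} (hb : b + 1 + i ≤ T.card) :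
    D (bl 𝕜 S) (Gl S T i H (b + 1)) = Gl S T i H b := by
  have h1 : D (bl 𝕜 S) (Gl S T i H (b + 1)) = ∑ s ∈ Finset.range (i + 1),
      (((-1 : 𝕜) ^ s * (cf (b + 1) s : 𝕜)) • (Es 𝕜 T (b + s) * (D (bl 𝕜 S) ^ s) H)
      + ((-1 : 𝕜) ^ s * (cf (b + 1) s : 𝕜)) •
        (Es 𝕜 T (b + (s + 1)) * (D (bl 𝕜 S) ^ (s + 1)) H)) := by
    unfold Gl
    rw [map_sum]
    refine Finset.sum_congr rfl fun s hs => ?_
    rw [Finset.mem_range] at hs
    rw [map_smul, D_mul, ← Module.End.mul_apply, ← pow_succ', ← smul_add]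
    have h2 : b + 1 + s = b + s + 1 := by ring
    rw [h2, D_Es hTS (by omega)]
    have h3 : b + (s + 1) = b + s + 1 := by ring
    rw [h3]
  rw [h1, Finset.sum_add_distrib, Finset.sum_range_succ']
  have h4 : ∑ s ∈ Finset.range (i + 1), ((-1 : 𝕜) ^ s * (cf (b + 1) s : 𝕜)) •
        (Es 𝕜 T (b + (s + 1)) * (D (bl 𝕜 S) ^ (s + 1)) H)
      = ∑ s ∈ Finset.range i, ((-1 : 𝕜) ^ s * (cf (b + 1) s : 𝕜)) •
        (Es 𝕜 T (b + (s + 1)) * (D (bl 𝕜 S) ^ (s + 1)) H) := by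
    rw [Finset.sum_range_succ, hH, mul_zero, smul_zero, add_zero]
  rw [h4]
  unfold Gl
  rw [Finset.sum_range_succ', add_right_comm, ← Finset.sum_add_distrib]
  simp only [cf_zero]
  congr 1
  refine Finset.sum_congr rfl fun s _ => ?_
  rw [← add_smul, cf_succ]
  congr 1
  push_cast
  ring

lemma Dpow_Gl {S T : Finset σ} (hTS : T ⊆ S) {i : ℕ} {H : MvPolynomial σ 𝕜}
    (hH : (D (bl 𝕜 S) ^ (i + 1)) H = 0) : ∀ b : ℕ, b + i ≤ T.card →
    (D (bl 𝕜 S) ^ b) (Gl S T i H b) = H := by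
  intro b
  induction b with
  | zero => intro _; simpa using Gl_zero S T i H
  | succ b ih =>
    intro hb
    rw [pow_succ, Module.End.mul_apply, D_Gl hTS hH (by omega), ih (by omega)]

lemma Dpow_mul_left {v : σ → 𝕜} {A : MvPolynomial σ 𝕜} (hA : D v A = 0) (e : ℕ) :
    ∀ G, (D v ^ e) (A * G) = A * (D v ^ e) G := by
  induction e with
  | zero => intro G; simp
  | succ e ih =>
    intro G
    rw [pow_succ, Module.End.mul_apply, Module.End.mul_apply, D_mul, hA, zero_mul, zero_add, ih]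

/-- the local lifting lemma -/
theorem local_lift {S T Z : Finset σ} (hTS : T ⊆ S) (hTZ : Disjoint T Z) {i e : ℕ}
    (ht : e + i ≤ T.card) {P : Set (Finset σ)} (hP : ∀ β ∈ P, β ⊆ Z ∧ β.card = i)
    {H : MvPolynomial σ 𝕜} (hH : H ∈ Sp 𝕜 P) :
    ∃ F ∈ Sp 𝕜 {δ | ∃ β ∈ P, δ ⊆ T ∪ β ∧ δ.card = i + e},
      (D (bl 𝕜 S) ^ e) F = H ∧
      ∀ (S' : Finset σ) (e' : ℕ),
        (Disjoint S' T ∧ (D (bl 𝕜 S') ^ e') H = 0) ∨ (S' ∩ (Z ∪ T)).card < e' →
        (D (bl 𝕜 S') ^ e') F = 0 := by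
  have hH1 : (D (bl 𝕜 S) ^ (i + 1)) H = 0 := by
    refine Dpow_Sp_zero S ?_ hH
    intro β hβ
    have h1 := (hP β hβ).2
    have h2 := Finset.card_le_card (Finset.inter_subset_right (s₁ := S) (s₂ := β))
    omega
  have hmem : Gl S T i H e ∈ Sp 𝕜 {δ | ∃ β ∈ P, δ ⊆ T ∪ β ∧ δ.card = i + e} := by
    refine Submodule.sum_mem _ fun s hs => Submodule.smul_mem _ _ ?_
    refine Sp_mul ?_ (Es_mem T (e + s)) (Dpow_Sp S s hH)
    rintro α ⟨hα, hα'⟩ γ ⟨β, hβ, h1, h2, h3⟩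
    have hd : Disjoint α γ := hTZ.mono hα (h1.trans (hP β hβ).1)
    refine ⟨hd, β, hβ, Finset.union_subset_union hα h1, ?_⟩
    rw [Finset.card_union_of_disjoint hd]
    have := (hP β hβ).2
    omega
  refine ⟨Gl S T i H e, hmem, Dpow_Gl hTS hH1 e ht, ?_⟩
  intro S' e' hS'
  rcases hS' with ⟨hd, h0⟩ | hlt
  · unfold Gl
    rw [map_sum]
    refine Finset.sum_eq_zero fun s _ => ?_
    rw [map_smul, Dpow_mul_left (D_Es_disj hd _), Dpow_comm_apply, h0, map_zero, mul_zero,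
      smul_zero]
  · refine Dpow_Sp_zero S' ?_ hmem
    rintro δ ⟨β, hβ, h1, _⟩
    refine lt_of_le_of_lt (Finset.card_le_card (Finset.inter_subset_inter_left ?_)) hlt
    refine h1.trans ?_
    rw [Finset.union_comm Z T]
    exact Finset.union_subset_union_right (hP β hβ).1

end
end H350MG
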