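import Mathlib
import Pool.Agent.H350R3.MG.Lift

set_option linter.unusedSectionVars false

namespace H350MG
open MvPolynomial

noncomputable section

variable {𝕜 : Type} [Field 𝕜] [CharZero 𝕜] {σ : Type*} [Fintype σ] [DecidableEq σ]

/-- the combinatorial property of the block system used in the specialisation -/
structure Design (d : ℕ) {r : ℕ} (e : Fin r → ℕ) (z t : ℕ) (B : Fin r → Finset σ) : Prop where
  inter : ∀ i j, i ≠ j → (B i ∩ B j).card < max (e i) (e j)
  good : ∀ i, e i ≤ d → ∀ Z : Finset σ, Z.card ≤ z → ∃ T ⊆ B i, Disjoint T Z ∧ T.card = t ∧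
    ∀ j, j ≠ i → Disjoint (B j) T ∨ (B j ∩ (Z ∪ T)).card < e j

/-- blocks meeting `β` in at least as many elements as their exponent -/
def act {r : ℕ} (e : Fin r → ℕ) (B : Fin r → Finset σ) (β : Finset σ) : Finset (Fin r) :=
  Finset.univ.filter fun l => e l ≤ (B l ∩ β).card

lemma mem_act {r : ℕ} {e : Fin r → ℕ} {B : Fin r → Finset σ} {β : Finset σ} {l : Fin r} :
    l ∈ act e B β ↔ e l ≤ (B l ∩ β).card := by simp [act]

lemma act_mono {r : ℕ} {e : Fin r → ℕ} {B : Fin r → Finset σ} {β γ : Finset σ} (h : β ⊆ γ) :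
    act e B β ⊆ act e B γ := by
  intro l hl
  rw [mem_act] at *
  exact hl.trans (Finset.card_le_card (Finset.inter_subset_inter_left h))

lemma card_act_le {r : ℕ} {e : Fin r → ℕ} {B : Fin r → Finset σ}
    (hB : ∀ i j, i ≠ j → (B i ∩ B j).card < max (e i) (e j)) (β : Finset σ) :
    (act e B β).card ≤ 2 ^ β.card := by
  rw [← Finset.card_powerset]
  refine Finset.card_le_card_of_injOn (fun l => B l ∩ β) ?_ ?_
  · intro l _
    simp
  · intro l hl l' hl' h
    by_contra hne
    have h1 := hB l l' hne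
    rw [Finset.mem_coe, mem_act] at hl hl'
    have h3 : B l ∩ β = B l' ∩ β := h
    have h2 : B l ∩ β ⊆ B l ∩ B l' := by
      refine Finset.subset_inter Finset.inter_subset_left ?_
      rw [h3]; exact Finset.inter_subset_left
    have h4 := Finset.card_le_card h2
    rw [← h3] at hl'
    have := max_le hl hl'
    omega

/-- explicit bounds for the sizes of the local supports -/
def bnd (d t M : ℕ) : ℕ → ℕ → ℕ
  | 0, _ => d
  | p + 1, 0 => bnd d t M p M
  | p + 1, c + 1 => bnd d t M (p + 1) c + 2 ^ (bnd d t M (p + 1) c) * (bnd d t M p M + t)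
termination_by p c => (p, c)

lemma bnd_succ_zero (d t M p : ℕ) : bnd d t M (p + 1) 0 = bnd d t M p M := by
  rw [bnd]

lemma bnd_succ (d t M p c : ℕ) : bnd d t M (p + 1) (c + 1) =
    bnd d t M (p + 1) c + 2 ^ (bnd d t M (p + 1) c) * (bnd d t M p M + t) := by
  rw [bnd]

lemma bnd_le_succ (d t M p c : ℕ) : bnd d t M p c ≤ bnd d t M p (c + 1) := by
  cases p with
  | zero => simp [bnd]
  | succ p => rw [bnd_succ]; exact Nat.le_add_right _ _

lemma bnd_mono (d t M p : ℕ) {c c' : ℕ} (h : c ≤ c') : bnd d t M p c ≤ bnd d t M p c' :=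
  monotone_nat_of_le_succ (f := bnd d t M p) (bnd_le_succ d t M p) h

lemma bnd_mono_left (d t M : ℕ) {p p' : ℕ} (h : p ≤ p') : bnd d t M p M ≤ bnd d t M p' M := by
  refine monotone_nat_of_le_succ (f := fun p => bnd d t M p M) (fun p => ?_) h
  change bnd d t M p M ≤ bnd d t M (p + 1) M
  rw [← bnd_succ_zero]
  exact bnd_mono _ _ _ _ (Nat.zero_le _)

lemma le_bnd (d t M : ℕ) (p c : ℕ) : d ≤ bnd d t M p c := by
  induction p generalizing c with
  | zero => simp [bnd]
  | succ p ih =>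
    refine le_trans ?_ (bnd_mono d t M (p + 1) (Nat.zero_le c))
    rw [bnd_succ_zero]; exact ih M

/-- the total bound -/
def zz (d t : ℕ) : ℕ := ∑ p ∈ Finset.range (d + 1), bnd d t (2 ^ d) p (2 ^ d)

lemma le_zz (d t : ℕ) {p : ℕ} (hp : p ≤ d) : bnd d t (2 ^ d) p (2 ^ d) ≤ zz d t := by
  unfold zz
  exact Finset.single_le_sum (f := fun p => bnd d t (2 ^ d) p (2 ^ d))
    (fun _ _ => Nat.zero_le _) (Finset.mem_range.2 (by omega))

/-- the local projections after `j` blocks -/
def PJ (d : ℕ) {r : ℕ} (e : Fin r → ℕ) (B : Fin r → Finset σ) (j : ℕ)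
    (ρ : Finset σ → MvPolynomial σ 𝕜) (Z : Finset σ → Finset σ) : Prop :=
  (∀ β : Finset σ, β.card ≤ d →
    ρ β ∈ Sp 𝕜 {δ | (δ ⊆ Z β ∧ δ.card = β.card) ∧ act e B δ ⊆ act e B β}) ∧
  (∀ β : Finset σ, β.card ≤ d →
    (Z β).card ≤ bnd d d (2 ^ d) β.card ((act e B β).filter fun l => l.val < j).card) ∧
  (∀ β : Finset σ, β.card ≤ d → ∀ l : Fin r, l.val < j → (D (bl 𝕜 (B l)) ^ e l) (ρ β) = 0) ∧
  (∀ i ≤ d, ∀ F ∈ Sp 𝕜 {β : Finset σ | β.card = i},
    (∀ l : Fin r, l.val < j → (D (bl 𝕜 (B l)) ^ e l) F = 0) → F = ∑ β, coeff (ind β) F • ρ β)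

lemma PJ_zero (𝕜 : Type) [Field 𝕜] [CharZero 𝕜] (d : ℕ) {r : ℕ} (e : Fin r → ℕ)
    (B : Fin r → Finset σ) : PJ d e B 0 (xm 𝕜) id := by
  refine ⟨?_, ?_, ?_, ?_⟩
  · intro β _
    exact xm_mem_Sp ⟨⟨subset_rfl, rfl⟩, subset_rfl⟩
  · intro β hβ
    have : ((act e B β).filter fun l => l.val < 0) = ∅ := by simp
    rw [this, Finset.card_empty]
    exact hβ.trans (le_bnd _ _ _ _ _)
  · intro β _ l hl; omega
  · intro i _ F hF _
    exact Sp_decomp hF

/-- the local right inverses of the `j`-th constraint -/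
lemma PJ_lift {d r : ℕ} {e : Fin r → ℕ} {B : Fin r → Finset σ}
    (hB : Design d e (zz d d) d B) (j : Fin r)
    {ρ : Finset σ → MvPolynomial σ 𝕜} {Z : Finset σ → Finset σ} (h : PJ d e B j.val ρ Z)
    (γ : Finset σ) (hγ : γ.card + e j ≤ d) :
    ∃ (lam : MvPolynomial σ 𝕜) (T : Finset σ), T.card = d ∧
      lam ∈ Sp 𝕜 {δ | (δ ⊆ T ∪ Z γ ∧ δ.card = γ.card + e j) ∧ act e B δ ⊆ insert j (act e B γ)} ∧
      (D (bl 𝕜 (B j)) ^ e j) lam = ρ γ ∧ ∀ l : Fin r, l.val < j.val → (D (bl 𝕜 (B l)) ^ e l) lam = 0 := by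
  obtain ⟨h1, h2, h3, h4⟩ := h
  have hγd : γ.card ≤ d := by omega
  have hZ : (Z γ).card ≤ zz d d := by
    refine (h2 γ hγd).trans ((bnd_mono _ _ _ _ ?_).trans (le_zz d d (p := γ.card) ?_))
    · refine (Finset.card_le_card (Finset.filter_subset _ _)).trans
        ((card_act_le hB.inter γ).trans (Nat.pow_le_pow_right (by norm_num) hγd))
    · exact hγd
  obtain ⟨T, hT1, hT2, hT3, hT4⟩ := hB.good j (by omega) (Z γ) hZ
  obtain ⟨F, hF1, hF2, hF3⟩ := local_lift hT1 hT2 (i := γ.card) (e := e j) (by omega)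
    (P := {δ | (δ ⊆ Z γ ∧ δ.card = γ.card) ∧ act e B δ ⊆ act e B γ})
    (fun β hβ => hβ.1) (h1 γ hγd)
  refine ⟨F, T, hT3, ?_, hF2, ?_⟩
  · refine Sp_mono ?_ hF1
    rintro δ ⟨β, ⟨⟨hβ1, hβ2⟩, hβ3⟩, hδ1, hδ2⟩
    refine ⟨⟨hδ1.trans (Finset.union_subset_union_right hβ1), hδ2⟩, ?_⟩
    intro l hl
    rw [Finset.mem_insert]
    by_cases hlj : l = j
    · exact Or.inl hlj
    · right
      apply hβ3
      rw [mem_act] at hl ⊢
      rcases hT4 l hlj with hd | hlt
      · refine hl.trans (Finset.card_le_card ?_)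
        intro x hx
        rw [Finset.mem_inter] at hx ⊢
        refine ⟨hx.1, ?_⟩
        rcases Finset.mem_union.1 (hδ1 hx.2) with hxT | hxβ
        · exact absurd hxT (Finset.disjoint_left.1 hd hx.1)
        · exact hxβ
      · exfalso
        have : B l ∩ δ ⊆ B l ∩ (Z γ ∪ T) := by
          refine Finset.inter_subset_inter_left (hδ1.trans ?_)
          rw [Finset.union_comm (Z γ) T]
          exact Finset.union_subset_union_right hβ1
        have := Finset.card_le_card this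
        omega
  · intro l hl
    apply hF3
    have hlj : l ≠ j := by rintro rfl; exact lt_irrefl _ hl
    rcases hT4 l hlj with hd | hlt
    · exact Or.inl ⟨hd, h3 γ hγd l hl⟩
    · exact Or.inr hlt

/-- surjectivity of the `j`-th constraint on the common kernel of the previous ones -/
lemma PJ_surj {d r : ℕ} {e : Fin r → ℕ} {B : Fin r → Finset σ}
    (hB : Design d e (zz d d) d B) (j : Fin r)
    {ρ : Finset σ → MvPolynomial σ 𝕜} {Z : Finset σ → Finset σ} (h : PJ d e B j.val ρ Z)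
    {i : ℕ} (hi : i + e j ≤ d) {H : MvPolynomial σ 𝕜} (hH : H ∈ Sp 𝕜 {β : Finset σ | β.card = i})
    (hH0 : ∀ l : Fin r, l.val < j.val → (D (bl 𝕜 (B l)) ^ e l) H = 0) :
    ∃ F ∈ Sp 𝕜 {β : Finset σ | β.card = i + e j},
      (∀ l : Fin r, l.val < j.val → (D (bl 𝕜 (B l)) ^ e l) F = 0) ∧ (D (bl 𝕜 (B j)) ^ e j) F = H := by
  classical
  have hlift := fun γ : Finset σ => PJ_lift hB j h γ
  choose! lam T hT hl1 hl2 hl3 using hlift
  have hcard : ∀ γ : Finset σ, coeff (ind γ) H ≠ 0 → γ.card = i := fun γ hγ =>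
    coeff_mem_of_Sp hH hγ
  refine ⟨∑ γ, coeff (ind γ) H • lam γ, ?_, ?_, ?_⟩
  · refine Submodule.sum_mem _ fun γ _ => ?_
    by_cases hγ : coeff (ind γ) H = 0
    · rw [hγ, zero_smul]; exact Submodule.zero_mem _
    · have hc := hcard γ hγ
      refine Submodule.smul_mem _ _ (Sp_mono ?_ (hl1 γ (by omega)))
      rintro δ ⟨⟨_, h2⟩, _⟩
      change δ.card = i + e j
      omega
  · intro l hl
    rw [map_sum]
    refine Finset.sum_eq_zero fun γ _ => ?_
    by_cases hγ : coeff (ind γ) H = 0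
    · rw [hγ, zero_smul, map_zero]
    · rw [map_smul, hl3 γ (by have := hcard γ hγ; omega) l hl, smul_zero]
  · rw [map_sum]
    conv_rhs => rw [h.2.2.2 i (by omega) H hH hH0]
    refine Finset.sum_congr rfl fun γ _ => ?_
    by_cases hγ : coeff (ind γ) H = 0
    · rw [hγ, zero_smul, map_zero, zero_smul]
    · rw [map_smul, hl2 γ (by have := hcard γ hγ; omega)]

lemma PJ_succ {d r : ℕ} {e : Fin r → ℕ} (he : ∀ i, 0 < e i) {B : Fin r → Finset σ}
    (hB : Design d e (zz d d) d B)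
    (j : Fin r) {ρ : Finset σ → MvPolynomial σ 𝕜} {Z : Finset σ → Finset σ}
    (h : PJ d e B j.val ρ Z) :
    ∃ (ρ' : Finset σ → MvPolynomial σ 𝕜) (Z' : Finset σ → Finset σ),
      PJ d e B (j.val + 1) ρ' Z' := by
  classical
  have hlift := fun γ : Finset σ => PJ_lift hB j h γ
  choose! lam T hT hl1 hl2 hl3 using hlift
  obtain ⟨h1, h2, h3, h4⟩ := h
  let Λ : MvPolynomial σ 𝕜 →ₗ[𝕜] MvPolynomial σ 𝕜 :=
    ∑ γ : Finset σ, (lcoeff 𝕜 (ind γ)).smulRight (lam γ)
  have hΛ : ∀ F, Λ F = ∑ γ : Finset σ, coeff (ind γ) F • lam γ := by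
    intro F
    simp only [Λ, LinearMap.sum_apply, LinearMap.smulRight_apply, lcoeff_apply]
  let ρ' : Finset σ → MvPolynomial σ 𝕜 := fun β => ρ β - Λ ((D (bl 𝕜 (B j)) ^ e j) (ρ β))
  let Z' : Finset σ → Finset σ := fun β =>
    if j ∈ act e B β then
      Z β ∪ (Z β).powerset.biUnion fun γ => if γ.card + e j = β.card then T γ ∪ Z γ else ∅
    else Z β
  have hcoef : ∀ β : Finset σ, β.card ≤ d → ∀ γ : Finset σ,
      coeff (ind γ) ((D (bl 𝕜 (B j)) ^ e j) (ρ β)) ≠ 0 →
      γ.card + e j = β.card ∧ j ∈ act e B β ∧ γ ⊆ Z β ∧ act e B γ ⊆ act e B β := by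
    intro β hβ γ hγ
    obtain ⟨β', ⟨⟨hb1, hb2⟩, hb3⟩, hg1, hg2, hg3⟩ :=
      coeff_mem_of_Sp (Dpow_Sp (B j) (e j) (h1 β hβ)) hγ
    exact ⟨by omega, hb3 (mem_act.2 hg3), hg1.trans hb1, (act_mono hg1).trans hb3⟩
  refine ⟨ρ', Z', ?_, ?_, ?_, ?_⟩
  · intro β hβ
    have hZZ : Z β ⊆ Z' β := by
      simp only [Z']
      split_ifs
      · exact Finset.subset_union_left
      · exact subset_rfl
    refine Submodule.sub_mem _ (Sp_mono ?_ (h1 β hβ)) ?_
    · rintro δ ⟨⟨a1, a2⟩, a3⟩
      exact ⟨⟨a1.trans hZZ, a2⟩, a3⟩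
    · rw [hΛ]
      refine Submodule.sum_mem _ fun γ _ => ?_
      by_cases hγ : coeff (ind γ) ((D (bl 𝕜 (B j)) ^ e j) (ρ β)) = 0
      · rw [hγ, zero_smul]; exact Submodule.zero_mem _
      · obtain ⟨c1, c2, c3, c4⟩ := hcoef β hβ γ hγ
        refine Submodule.smul_mem _ _ (Sp_mono ?_ (hl1 γ (by omega)))
        rintro δ ⟨⟨a1, a2⟩, a3⟩
        refine ⟨⟨?_, by omega⟩, a3.trans (Finset.insert_subset c2 c4)⟩
        simp only [Z', if_pos c2]
        refine a1.trans (Finset.Subset.trans ?_ Finset.subset_union_right)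
        have : T γ ∪ Z γ = (fun γ => if γ.card + e j = β.card then T γ ∪ Z γ else ∅) γ := by
          simp only [if_pos c1]
        rw [this]
        exact Finset.subset_biUnion_of_mem
          (fun γ => if γ.card + e j = β.card then T γ ∪ Z γ else ∅) (Finset.mem_powerset.2 c3)
  · intro β hβ
    have hb := h2 β hβ
    by_cases hj : j ∈ act e B β
    · have hcard : e j ≤ β.card := by
        rw [mem_act] at hj
        exact hj.trans (Finset.card_le_card Finset.inter_subset_right)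
      obtain ⟨p, hp⟩ : ∃ p, β.card = p + 1 := by
        have := he j
        exact ⟨β.card - 1, by omega⟩
      have hf : ((act e B β).filter fun l => l.val < j.val + 1).card
          = ((act e B β).filter fun l => l.val < j.val).card + 1 := by
        have : ((act e B β).filter fun l => l.val < j.val + 1)
            = insert j ((act e B β).filter fun l => l.val < j.val) := by
          ext l
          simp only [Finset.mem_filter, Finset.mem_insert]
          constructor
          · rintro ⟨a, b⟩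
            by_cases hlj : l = j
            · exact Or.inl hlj
            · right
              refine ⟨a, ?_⟩
              have : l.val ≠ j.val := fun hh => hlj (Fin.ext hh)
              omega
          · rintro (rfl | ⟨a, b⟩)
            · exact ⟨hj, by omega⟩
            · exact ⟨a, by omega⟩
        rw [this, Finset.card_insert_of_notMem (by simp)]
      rw [hf, hp, bnd_succ, ← hp]
      simp only [Z', if_pos hj]
      refine (Finset.card_union_le _ _).trans (Nat.add_le_add hb ?_)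
      refine (Finset.card_biUnion_le_card_mul _ _ (bnd d d (2 ^ d) p (2 ^ d) + d) ?_).trans ?_
      · intro γ _
        by_cases hc : γ.card + e j = β.card
        · simp only [if_pos hc]
          have hγd : γ.card ≤ d := by omega
          have hp' : γ.card ≤ p := by
            have := he j
            omega
          refine (Finset.card_union_le _ _).trans ?_
          rw [hT γ (by omega), Nat.add_comm]
          refine Nat.add_le_add_right ((h2 γ hγd).trans ?_) _
          refine le_trans ?_ (bnd_mono_left _ _ _ hp')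
          refine bnd_mono _ _ _ _ ?_
          refine (Finset.card_le_card (Finset.filter_subset _ _)).trans
            ((card_act_le hB.inter γ).trans (Nat.pow_le_pow_right (by norm_num) hγd))
        · simp only [if_neg hc, Finset.card_empty]; omega
      · rw [Finset.card_powerset]
        exact Nat.mul_le_mul_right _ (Nat.pow_le_pow_right (by norm_num) hb)
    · have hf : ((act e B β).filter fun l => l.val < j.val + 1)
          = ((act e B β).filter fun l => l.val < j.val) := by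
        ext l
        simp only [Finset.mem_filter]
        constructor
        · rintro ⟨a, b⟩
          refine ⟨a, ?_⟩
          have : l.val ≠ j.val := fun hh => hj (by rwa [← Fin.ext hh])
          omega
        · rintro ⟨a, b⟩
          exact ⟨a, by omega⟩
      simp only [Z', if_neg hj]
      rw [hf]
      exact hb
  · intro β hβ l hl
    change (D (bl 𝕜 (B l)) ^ e l) (ρ β - Λ ((D (bl 𝕜 (B j)) ^ e j) (ρ β))) = 0
    rw [map_sub, hΛ, map_sum]
    by_cases hlj : l.val < j.val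
    · rw [h3 β hβ l hlj, zero_sub, neg_eq_zero]
      refine Finset.sum_eq_zero fun γ _ => ?_
      by_cases hγ : coeff (ind γ) ((D (bl 𝕜 (B j)) ^ e j) (ρ β)) = 0
      · rw [hγ, zero_smul, map_zero]
      · obtain ⟨c1, _⟩ := hcoef β hβ γ hγ
        rw [map_smul, hl3 γ (by omega) l hlj, smul_zero]
    · have hlj' : l = j := Fin.ext (by omega)
      subst hlj'
      rw [sub_eq_zero]
      have hF : (D (bl 𝕜 (B l)) ^ e l) (ρ β) ∈ Sp 𝕜 {γ : Finset σ | γ.card = β.card - e l} := by
        refine Sp_mono ?_ (Dpow_Sp (B l) (e l) (h1 β hβ))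
        rintro γ ⟨β', ⟨⟨_, a2⟩, _⟩, _, a4, _⟩
        change γ.card = β.card - e l
        omega
      conv_lhs => rw [h4 (β.card - e l) (by omega) _ hF (by
        intro l' hl'
        rw [Dpow_comm_apply, h3 β hβ l' hl', map_zero])]
      refine Finset.sum_congr rfl fun γ _ => ?_
      by_cases hγ : coeff (ind γ) ((D (bl 𝕜 (B l)) ^ e l) (ρ β)) = 0
      · rw [hγ, zero_smul, zero_smul, map_zero]
      · obtain ⟨c1, _⟩ := hcoef β hβ γ hγ
        rw [map_smul, hl2 γ (by omega)]
  · intro i hi F hF hF0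
    have h5 := h4 i hi F hF fun l hl => hF0 l (by omega)
    have h6 : ∑ β, coeff (ind β) F • ρ' β
        = (∑ β, coeff (ind β) F • ρ β) - Λ ((D (bl 𝕜 (B j)) ^ e j) (∑ β, coeff (ind β) F • ρ β)) := by
      rw [map_sum, map_sum, ← Finset.sum_sub_distrib]
      refine Finset.sum_congr rfl fun β _ => ?_
      rw [map_smul, map_smul, ← smul_sub]
    rw [h6, ← h5, hF0 j (by omega), map_zero, sub_zero]

lemma exists_PJ (𝕜 : Type) [Field 𝕜] [CharZero 𝕜] {d r : ℕ} {e : Fin r → ℕ}
    (he : ∀ i, 0 < e i) {B : Fin r → Finset σ} (hB : Design d e (zz d d) d B) :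
    ∀ j ≤ r, ∃ (ρ : Finset σ → MvPolynomial σ 𝕜) (Z : Finset σ → Finset σ), PJ d e B j ρ Z := by
  intro j
  induction j with
  | zero => intro _; exact ⟨xm 𝕜, id, PJ_zero 𝕜 d e B⟩
  | succ j ih =>
    intro hj
    obtain ⟨ρ, Z, h⟩ := ih (by omega)
    exact PJ_succ he hB ⟨j, by omega⟩ h

/-- surjectivity for a design -/
theorem design_surj {d r : ℕ} {e : Fin r → ℕ} (he : ∀ i, 0 < e i) {B : Fin r → Finset σ}
    (hB : Design d e (zz d d) d B) (j : Fin r)
    {i : ℕ} (hi : i + e j ≤ d) {H : MvPolynomial σ 𝕜} (hH : H ∈ Sp 𝕜 {β : Finset σ | β.card = i})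
    (hH0 : ∀ l : Fin r, l.val < j.val → (D (bl 𝕜 (B l)) ^ e l) H = 0) :
    ∃ F ∈ Sp 𝕜 {β : Finset σ | β.card = i + e j},
      (∀ l : Fin r, l.val < j.val → (D (bl 𝕜 (B l)) ^ e l) F = 0) ∧ (D (bl 𝕜 (B j)) ^ e j) F = H := by
  obtain ⟨ρ, Z, h⟩ := exists_PJ 𝕜 he hB j.val j.2.le
  exact PJ_surj hB j h hi hH hH0

end
end H350MG
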