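import Mathlib
import Pool.Agent.H350R3.MF.Des
import Pool.Agent.H350R3.MG.Proj

set_option linter.unusedSectionVars false

namespace H350MG

noncomputable section

/-- one class of blocks, indexed by the elements of the class -/
lemma exists_class {e z t a C N r : ℕ}
    (hC : ∀ (σ : Type) [Fintype σ] [DecidableEq σ] (r : ℕ),
      C * r ^ a ≤ (Fintype.card σ) ^ (a * e - 1) →
      ∃ B : Fin r → Finset σ, H350MF.Design e z t B)
    (cls : Finset (Fin r)) (h : C * cls.card ^ a ≤ N ^ (a * e - 1)) :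
    ∃ b : Fin r → Finset (Fin N),
      (∀ i ∈ cls, ∀ j ∈ cls, i ≠ j → (b i ∩ b j).card < e) ∧
      (∀ i ∈ cls, ∀ Z : Finset (Fin N), Z.card ≤ z → ∃ T ⊆ b i, Disjoint T Z ∧ T.card = t ∧
        ∀ j ∈ cls, j ≠ i → Disjoint (b j) T ∨ (b j ∩ (Z ∪ T)).card < e) := by
  classical
  obtain ⟨B, hB⟩ := hC (Fin N) cls.card (by rw [Fintype.card_fin]; exact h)
  let φ := cls.equivFin
  let b : Fin r → Finset (Fin N) := fun i => if h : i ∈ cls then B (φ ⟨i, h⟩) else ∅
  have hb : ∀ i (h : i ∈ cls), b i = B (φ ⟨i, h⟩) := fun i h => by simp only [b, dif_pos h]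
  have hφ : ∀ i (hi : i ∈ cls) j (hj : j ∈ cls), i ≠ j → φ ⟨i, hi⟩ ≠ φ ⟨j, hj⟩ := by
    intro i hi j hj hij h
    apply hij
    have := φ.injective h
    exact congrArg Subtype.val this
  refine ⟨b, ?_, ?_⟩
  · intro i hi j hj hij
    rw [hb i hi, hb j hj]
    exact hB.inter _ _ (hφ i hi j hj hij)
  · intro i hi Z hZ
    obtain ⟨T, hT1, hT2, hT3, hT4⟩ := hB.good (φ ⟨i, hi⟩) Z hZ
    refine ⟨T, by rw [hb i hi]; exact hT1, hT2, hT3, ?_⟩
    intro j hj hji
    rw [hb j hj]
    exact hT4 _ (hφ j hj i hi hji)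

/-- existence of block systems with mixed exponents -/
theorem exists_mixed (D z t a : ℕ) (ha : 0 < a) :
    ∃ C : ℕ, 0 < C ∧ ∀ (σ : Type) [Fintype σ] [DecidableEq σ] (r : ℕ) (e : Fin r → ℕ),
      (∀ i, 0 < e i) →
      (∀ e', 1 ≤ e' → e' ≤ D →
        C * (Finset.univ.filter fun i => e i = e').card ^ a ≤ (Fintype.card σ) ^ (a * e' - 1)) →
      ∃ B : Fin r → Finset σ, Design D e z t B := by
  classical
  have hex : ∀ e' : ℕ, ∃ C : ℕ, 0 < C ∧ (1 ≤ e' → ∀ (σ : Type) [Fintype σ] [DecidableEq σ]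
      (r : ℕ), C * r ^ a ≤ (Fintype.card σ) ^ (a * e' - 1) →
      ∃ B : Fin r → Finset σ, H350MF.Design e' z t B) := by
    intro e'
    by_cases he : 1 ≤ e'
    · obtain ⟨C, hC, h⟩ := H350MF.exists_design e' z t a he ha
      exact ⟨C, hC, fun _ => h⟩
    · exact ⟨1, one_pos, fun h => absurd h he⟩
  choose Ce hCe0 hCe using hex
  obtain ⟨S, hS⟩ : ∃ S, S = ∑ e' ∈ Finset.range (D + 1), Ce e' := ⟨_, rfl⟩
  have hS1 : ∀ e' ≤ D, Ce e' ≤ S := by
    intro e' he'
    rw [hS]
    exact Finset.single_le_sum (f := Ce) (fun _ _ => Nat.zero_le _) (Finset.mem_range.2 (by omega))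
  have hS0 : 0 < S := (hCe0 0).trans_le (hS1 0 (Nat.zero_le _))
  rcases Nat.eq_zero_or_pos D with hD | hD
  · subst hD
    refine ⟨1, one_pos, fun σ _ _ r e he _ => ⟨fun _ => ∅, ?_, ?_⟩⟩
    · intro i j _
      have := he i
      simp only [Finset.inter_self, Finset.card_empty]
      exact lt_max_of_lt_left this
    · intro i hi
      have := he i
      omega
  refine ⟨(S + 1) * (2 * D) ^ (a * D), by positivity, ?_⟩
  intro σ _ _ r e he hcount
  obtain ⟨N, hN⟩ : ∃ N, N = Fintype.card σ := ⟨_, rfl⟩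
  obtain ⟨N', hN'⟩ : ∃ N', N' = N / D := ⟨_, rfl⟩
  rw [← hN] at hcount
  have hDN : D * N' ≤ N := by rw [hN']; exact Nat.mul_div_le N D
  have hcls : ∀ e', 1 ≤ e' → e' ≤ D →
      Ce e' * (Finset.univ.filter fun i => e i = e').card ^ a ≤ N' ^ (a * e' - 1) := by
    intro e' h1 h2
    have h3 := hcount e' h1 h2
    obtain ⟨R, hR⟩ : ∃ R, R = (Finset.univ.filter fun i => e i = e').card := ⟨_, rfl⟩
    rw [← hR] at h3 ⊢
    have hexp : a * e' - 1 ≤ a * D := (Nat.sub_le _ _).trans (Nat.mul_le_mul_left _ h2)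
    rcases lt_or_ge N D with hlt | hge
    · have h4 : N ^ (a * e' - 1) ≤ (2 * D) ^ (a * D) := by
        refine (Nat.pow_le_pow_left (show N ≤ 2 * D by omega) _).trans ?_
        exact Nat.pow_le_pow_right (by omega) hexp
      have hR0 : R = 0 := by
        by_contra hne
        have h5 : 1 ≤ R ^ a := Nat.one_le_pow _ _ (Nat.pos_of_ne_zero hne)
        have h6 : 0 < (2 * D) ^ (a * D) := by positivity
        have h7 : (S + 1) * (2 * D) ^ (a * D) * 1 ≤ (S + 1) * (2 * D) ^ (a * D) * R ^ a :=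
          Nat.mul_le_mul_left _ h5
        have h8 : 2 * (2 * D) ^ (a * D) ≤ (S + 1) * (2 * D) ^ (a * D) :=
          Nat.mul_le_mul_right _ (by omega)
        omega
      rw [hR0, zero_pow ha.ne', mul_zero]
      exact Nat.zero_le _
    · have h4 : N ≤ 2 * D * N' := by
        have h5 : N < D * (N / D + 1) := Nat.lt_mul_div_succ N hD
        rw [← hN'] at h5
        have h6 : 0 < N' := by rw [hN']; exact Nat.div_pos hge hD
        have h7 : D * (N' + 1) ≤ 2 * D * N' := by nlinarith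
        omega
      have h5 : N ^ (a * e' - 1) ≤ (2 * D) ^ (a * D) * N' ^ (a * e' - 1) := by
        refine (Nat.pow_le_pow_left h4 _).trans ?_
        rw [mul_pow]
        exact Nat.mul_le_mul_right _ (Nat.pow_le_pow_right (by omega) hexp)
      have h6 : (2 * D) ^ (a * D) * (Ce e' * R ^ a) ≤ (2 * D) ^ (a * D) * N' ^ (a * e' - 1) := by
        calc (2 * D) ^ (a * D) * (Ce e' * R ^ a)
            ≤ (2 * D) ^ (a * D) * ((S + 1) * R ^ a) :=
              Nat.mul_le_mul_left _ (Nat.mul_le_mul_right _ ((hS1 e' h2).trans (by omega)))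
          _ = (S + 1) * (2 * D) ^ (a * D) * R ^ a := by ring
          _ ≤ _ := h3.trans h5
      exact Nat.le_of_mul_le_mul_left h6 (by positivity)
  have hb : ∀ e' : ℕ, ∃ b : Fin r → Finset (Fin N'), 1 ≤ e' → e' ≤ D →
      (∀ i, e i = e' → ∀ j, e j = e' → i ≠ j → (b i ∩ b j).card < e') ∧
      (∀ i, e i = e' → ∀ Z : Finset (Fin N'), Z.card ≤ z → ∃ T ⊆ b i, Disjoint T Z ∧
        T.card = t ∧ ∀ j, e j = e' → j ≠ i → Disjoint (b j) T ∨ (b j ∩ (Z ∪ T)).card < e') := by
    intro e'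
    by_cases h : 1 ≤ e' ∧ e' ≤ D
    · obtain ⟨b, hb1, hb2⟩ := exists_class (e := e') (z := z) (t := t) (hCe e' h.1)
        (Finset.univ.filter fun i => e i = e') (hcls e' h.1 h.2)
      refine ⟨b, fun _ _ => ⟨?_, ?_⟩⟩
      · intro i hi j hj hij
        exact hb1 i (by simpa using hi) j (by simpa using hj) hij
      · intro i hi Z hZ
        obtain ⟨T, hT1, hT2, hT3, hT4⟩ := hb2 i (by simpa using hi) Z hZ
        exact ⟨T, hT1, hT2, hT3, fun j hj hji => hT4 j (by simpa using hj) hji⟩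
    · exact ⟨fun _ => ∅, fun h1 h2 => absurd ⟨h1, h2⟩ h⟩
  choose b hb using hb
  obtain ⟨ι⟩ : Nonempty (Fin D × Fin N' ↪ σ) := by
    refine Function.Embedding.nonempty_of_card_le ?_
    rw [Fintype.card_prod, Fintype.card_fin, Fintype.card_fin, ← hN]
    exact hDN
  let em : ℕ → (Fin N' ↪ σ) := fun e' =>
    ⟨fun x => ι (⟨(e' - 1) % D, Nat.mod_lt _ hD⟩, x), fun x y hxy => by
      have := ι.injective hxy
      exact (Prod.ext_iff.1 this).2⟩
  have hem : ∀ e1 e2 x y, 1 ≤ e1 → e1 ≤ D → 1 ≤ e2 → e2 ≤ D → em e1 x = em e2 y → e1 = e2 := by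
    intro e1 e2 x y h1 h2 h3 h4 h
    have h5 := (Prod.ext_iff.1 (ι.injective h)).1
    have h6 : (e1 - 1) % D = (e2 - 1) % D := congrArg Fin.val h5
    rw [Nat.mod_eq_of_lt (by omega), Nat.mod_eq_of_lt (by omega)] at h6
    omega
  let B : Fin r → Finset σ := fun i => if e i ≤ D then (b (e i) i).map (em (e i)) else ∅
  have hBe : ∀ i, e i ≤ D → B i = (b (e i) i).map (em (e i)) := fun i h => by
    simp only [B, if_pos h]
  have hBe' : ∀ i, ¬ e i ≤ D → B i = ∅ := fun i h => by simp only [B, if_neg h]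
  have hdisj : ∀ i j, e i ≤ D → e j ≤ D → e i ≠ e j → Disjoint (B i) (B j) := by
    intro i j hi hj hij
    rw [hBe i hi, hBe j hj, Finset.disjoint_left]
    intro x hx hx'
    rw [Finset.mem_map] at hx hx'
    obtain ⟨u, _, hu⟩ := hx
    obtain ⟨v, _, hv⟩ := hx'
    exact hij (hem _ _ u v (he i) hi (he j) hj (hu.trans hv.symm))
  refine ⟨B, ?_, ?_⟩
  · intro i j hij
    by_cases hi : e i ≤ D
    · by_cases hj : e j ≤ D
      · by_cases hee : e i = e j
        · rw [hBe i hi, hBe j hj, ← hee, ← Finset.map_inter, Finset.card_map]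
          have := (hb (e i) (he i) hi).1 i rfl j hee.symm hij
          rw [max_self]
          exact this
        · have := Finset.disjoint_iff_inter_eq_empty.1 (hdisj i j hi hj hee)
          rw [this, Finset.card_empty]
          exact lt_max_of_lt_left (he i)
      · rw [hBe' j hj, Finset.inter_empty, Finset.card_empty]
        exact lt_max_of_lt_left (he i)
    · rw [hBe' i hi, Finset.empty_inter, Finset.card_empty]
      exact lt_max_of_lt_left (he i)
  · intro i hi Z hZ
    obtain ⟨T, hT1, hT2, hT3, hT4⟩ := (hb (e i) (he i) hi).2 i rfl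
      (Finset.univ.filter fun x => em (e i) x ∈ Z) (by
        refine le_trans ?_ hZ
        refine Finset.card_le_card_of_injOn (em (e i)) ?_ (em (e i)).injective.injOn
        intro x hx
        simpa using hx)
    refine ⟨T.map (em (e i)), ?_, ?_, ?_, ?_⟩
    · rw [hBe i hi]; exact Finset.map_subset_map.2 hT1
    · rw [Finset.disjoint_left]
      intro x hx hxZ
      obtain ⟨u, hu, rfl⟩ := Finset.mem_map.1 hx
      exact Finset.disjoint_left.1 hT2 hu (by simpa using hxZ)
    · rw [Finset.card_map, hT3]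
    · intro j hji
      by_cases hj : e j ≤ D
      · by_cases hee : e j = e i
        · rcases hT4 j hee hji with h | h
          · left
            rw [hBe j hj, hee]
            exact (Finset.disjoint_map _).2 h
          · right
            rw [hBe j hj, hee]
            refine lt_of_le_of_lt ?_ h
            rw [← Finset.card_map (em (e i))]
            refine Finset.card_le_card ?_
            intro x hx
            rw [Finset.mem_inter] at hx
            obtain ⟨u, hu, rfl⟩ := Finset.mem_map.1 hx.1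
            refine Finset.mem_map_of_mem _ (Finset.mem_inter.2 ⟨hu, ?_⟩)
            rcases Finset.mem_union.1 hx.2 with h' | h'
            · exact Finset.mem_union_left _ (by simpa using h')
            · exact Finset.mem_union_right _ ((Finset.mem_map' _).1 h')
        · left
          refine (hdisj j i hj hi hee).mono_right ?_
          rw [hBe i hi]; exact Finset.map_subset_map.2 hT1
      · left
        rw [hBe' j hj]
        exact Finset.disjoint_empty_left _

/-- numerical part: the real inequality gives the one used for the block systems -/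
lemma real_to_nat {e a C : ℕ} (he : 0 < e) (ha : 0 < a) (hC : 0 < C) {δ c : ℝ}
    (hc : c ≤ 1 / (C : ℝ))
    (hδ : δ ≤ (e : ℝ) - 1 / (a : ℝ)) {n r : ℕ} (hn : 1 ≤ n)
    (hr : (r : ℝ) ≤ c * (n : ℝ) ^ δ) :
    C * r ^ a ≤ n ^ (a * e - 1) := by
  have hn' : (1 : ℝ) ≤ n := by exact_mod_cast hn
  have hn0 : (0 : ℝ) ≤ n := by linarith
  have hC' : (1 : ℝ) ≤ C := by exact_mod_cast hC
  have ha' : (0 : ℝ) < a := by exact_mod_cast ha
  have h1 : (r : ℝ) ≤ 1 / (C : ℝ) * (n : ℝ) ^ ((e : ℝ) - 1 / (a : ℝ)) := by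
    refine hr.trans (mul_le_mul hc ?_ (by positivity) (by positivity))
    exact Real.rpow_le_rpow_of_exponent_le hn' hδ
  have h2 : ((n : ℝ) ^ ((e : ℝ) - 1 / (a : ℝ))) ^ a = (n : ℝ) ^ (a * e - 1) := by
    rw [← Real.rpow_natCast, ← Real.rpow_mul hn0, ← Real.rpow_natCast]
    congr 1
    have : 1 ≤ a * e := Nat.mul_pos ha he
    rw [Nat.cast_sub this]
    push_cast
    field_simp
  have h3 : (C : ℝ) * (r : ℝ) ^ a ≤ (n : ℝ) ^ (a * e - 1) := by
    have h4 : (r : ℝ) ^ a ≤ (1 / (C : ℝ)) ^ a * (n : ℝ) ^ (a * e - 1) := by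
      rw [← h2, ← mul_pow]
      exact pow_le_pow_left₀ (Nat.cast_nonneg r) h1 a
    have h5 : (1 / (C : ℝ)) ^ a ≤ 1 / (C : ℝ) := by
      refine pow_le_of_le_one (by positivity) ?_ ha.ne'
      rw [div_le_one (by linarith)]; exact hC'
    calc (C : ℝ) * (r : ℝ) ^ a ≤ C * (1 / (C : ℝ) * (n : ℝ) ^ (a * e - 1)) := by
          refine mul_le_mul_of_nonneg_left (h4.trans ?_) (by linarith)
          exact mul_le_mul_of_nonneg_right h5 (by positivity)
      _ = (n : ℝ) ^ (a * e - 1) := by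
          rw [← mul_assoc, mul_one_div_cancel (by linarith), one_mul]
  exact_mod_cast h3

end
end H350MG
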