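import Mathlib
import Pool.Agent.H350R3.MG.Coord
import Pool.Agent.H350R3.MG.Mix

set_option linter.unusedSectionVars false

namespace H350MG
open MvPolynomial

noncomputable section

section numeric
variable {σ : Type*} [Fintype σ]

lemma gj_pos [Nonempty σ] (j : ℕ) : 0 < gj σ j := by
  unfold gj
  have : 0 < Fintype.card σ := Fintype.card_pos
  have h := Nat.choose_pos (n := Fintype.card σ + j - 1) (k := j) (by omega)
  exact_mod_cast h

lemma gj_nonneg (j : ℕ) : 0 ≤ gj σ j := by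
  unfold gj
  exact_mod_cast Nat.zero_le _

lemma gj_step (j : ℕ) : (Fintype.card σ : ℤ) * gj σ j ≤ ((j : ℤ) + 1) * gj σ (j + 1) := by
  unfold gj
  rcases Nat.eq_zero_or_pos (Fintype.card σ) with h | h
  · rw [h, Nat.cast_zero, zero_mul]; positivity
  · obtain ⟨M, hM⟩ : ∃ M, Fintype.card σ = M + 1 := ⟨Fintype.card σ - 1, by omega⟩
    rw [hM]
    have h1 : M + 1 + j - 1 = M + j := by omega
    have h2 : M + 1 + (j + 1) - 1 = M + j + 1 := by omega
    rw [h1, h2]
    have h3 := Nat.add_one_mul_choose_eq (M + j) j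
    have h4 : (M + 1) * (M + j).choose j ≤ (j + 1) * (M + j + 1).choose (j + 1) := by
      rw [mul_comm (j + 1), ← h3]
      exact Nat.mul_le_mul_right _ (by omega)
    exact_mod_cast h4

lemma gj_pow (D : ℕ) (e : ℕ) : ∀ j, e ≤ j → j ≤ D →
    (Fintype.card σ : ℤ) ^ e * gj σ (j - e) ≤ (D : ℤ) ^ e * gj σ j := by
  induction e with
  | zero => intro j _ _; simp
  | succ e ih =>
    intro j hj hD
    obtain ⟨i, rfl⟩ : ∃ i, j = i + 1 := ⟨j - 1, by omega⟩
    have h1 := ih i (by omega) (by omega)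
    have h2 := gj_step (σ := σ) i
    have h3 : i + 1 - (e + 1) = i - e := by omega
    rw [h3]
    have hN : (0 : ℤ) ≤ Fintype.card σ := by positivity
    have hDe : (0 : ℤ) ≤ (D : ℤ) ^ e := by positivity
    calc (Fintype.card σ : ℤ) ^ (e + 1) * gj σ (i - e)
        = Fintype.card σ * ((Fintype.card σ : ℤ) ^ e * gj σ (i - e)) := by ring
      _ ≤ Fintype.card σ * ((D : ℤ) ^ e * gj σ i) := mul_le_mul_of_nonneg_left h1 hN
      _ = (D : ℤ) ^ e * (Fintype.card σ * gj σ i) := by ring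
      _ ≤ (D : ℤ) ^ e * (((i : ℤ) + 1) * gj σ (i + 1)) := mul_le_mul_of_nonneg_left h2 hDe
      _ ≤ (D : ℤ) ^ e * ((D : ℤ) * gj σ (i + 1)) := by
          refine mul_le_mul_of_nonneg_left ?_ hDe
          refine mul_le_mul_of_nonneg_right ?_ (gj_nonneg _)
          exact_mod_cast hD
      _ = (D : ℤ) ^ (e + 1) * gj σ (i + 1) := by ring

/-- few generators cannot fill a graded piece -/
lemma sum_lt [Nonempty σ] {D r : ℕ} {e : Fin r → ℕ} (he : ∀ i, 0 < e i) {c : ℝ} (hc0 : 0 < c)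
    (hc : c * ((D : ℝ) + 1) ^ (D + 1) < 1)
    (hcount : ∀ e', 1 ≤ e' → e' ≤ D →
      ((Finset.univ.filter fun i => e i = e').card : ℝ) ≤ c * (Fintype.card σ : ℝ) ^ e')
    {j : ℕ} (hj : j ≤ D) :
    ∑ i : Fin r, (if e i ≤ j then gj σ (j - e i) else 0) < gj σ j := by
  classical
  have h1 : ∑ i : Fin r, (if e i ≤ j then gj σ (j - e i) else 0)
      = ∑ e' ∈ Finset.Icc 1 j, ((Finset.univ.filter fun i => e i = e').card : ℤ) *
          gj σ (j - e') := by
    have h2 : ∀ i : Fin r, (if e i ≤ j then gj σ (j - e i) else 0)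
        = ∑ e' ∈ Finset.Icc 1 j, if e i = e' then gj σ (j - e') else 0 := by
      intro i
      rw [Finset.sum_ite_eq]
      have := he i
      by_cases h : e i ≤ j
      · rw [if_pos h, if_pos (Finset.mem_Icc.2 ⟨this, h⟩)]
      · rw [if_neg h, if_neg (fun h' => h (Finset.mem_Icc.1 h').2)]
    rw [Finset.sum_congr rfl fun i _ => h2 i, Finset.sum_comm]
    refine Finset.sum_congr rfl fun e' _ => ?_
    rw [← Finset.sum_filter, Finset.sum_const, nsmul_eq_mul]
  have hg : (0 : ℝ) < (gj σ j : ℝ) := by exact_mod_cast gj_pos j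
  have h3 : ((∑ i : Fin r, (if e i ≤ j then gj σ (j - e i) else 0) : ℤ) : ℝ) < (gj σ j : ℝ) := by
    rw [h1]
    push_cast
    have h4 : ∀ e' ∈ Finset.Icc 1 j, ((Finset.univ.filter fun i => e i = e').card : ℝ) *
        (gj σ (j - e') : ℝ) ≤ c * ((D : ℝ) + 1) ^ D * (gj σ j : ℝ) := by
      intro e' he'
      rw [Finset.mem_Icc] at he'
      have h5 := hcount e' he'.1 (by omega)
      have h6 : (Fintype.card σ : ℝ) ^ e' * (gj σ (j - e') : ℝ) ≤ (D : ℝ) ^ e' * (gj σ j : ℝ) := by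
        exact_mod_cast gj_pow (σ := σ) D e' j he'.2 hj
      have h7 : (0 : ℝ) ≤ (gj σ (j - e') : ℝ) := by exact_mod_cast gj_nonneg _
      calc ((Finset.univ.filter fun i => e i = e').card : ℝ) * (gj σ (j - e') : ℝ)
          ≤ c * (Fintype.card σ : ℝ) ^ e' * (gj σ (j - e') : ℝ) :=
            mul_le_mul_of_nonneg_right h5 h7
        _ = c * ((Fintype.card σ : ℝ) ^ e' * (gj σ (j - e') : ℝ)) := by ring
        _ ≤ c * ((D : ℝ) ^ e' * (gj σ j : ℝ)) := mul_le_mul_of_nonneg_left h6 hc0.le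
        _ ≤ c * (((D : ℝ) + 1) ^ D * (gj σ j : ℝ)) := by
            refine mul_le_mul_of_nonneg_left (mul_le_mul_of_nonneg_right ?_ hg.le) hc0.le
            calc (D : ℝ) ^ e' ≤ ((D : ℝ) + 1) ^ e' :=
                  pow_le_pow_left₀ (by positivity) (by linarith) _
              _ ≤ ((D : ℝ) + 1) ^ D := by
                  refine pow_le_pow_right₀ ?_ (by omega)
                  have : (0 : ℝ) ≤ D := by positivity
                  linarith
        _ = c * ((D : ℝ) + 1) ^ D * (gj σ j : ℝ) := by ring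
    refine lt_of_le_of_lt (Finset.sum_le_sum h4) ?_
    rw [Finset.sum_const, Nat.card_Icc, nsmul_eq_mul]
    have h8 : ((j + 1 - 1 : ℕ) : ℝ) ≤ (D : ℝ) + 1 := by
      have : (j : ℝ) ≤ D := by exact_mod_cast hj
      simp only [Nat.add_sub_cancel]
      linarith
    calc ((j + 1 - 1 : ℕ) : ℝ) * (c * ((D : ℝ) + 1) ^ D * (gj σ j : ℝ))
        ≤ ((D : ℝ) + 1) * (c * ((D : ℝ) + 1) ^ D * (gj σ j : ℝ)) := by
          refine mul_le_mul_of_nonneg_right h8 ?_
          positivity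
      _ = (c * ((D : ℝ) + 1) ^ (D + 1)) * (gj σ j : ℝ) := by ring
      _ < 1 * (gj σ j : ℝ) := mul_lt_mul_of_pos_right hc hg
      _ = (gj σ j : ℝ) := one_mul _
  exact_mod_cast h3

end numeric

/-- the common source of all the results -/
theorem main (D : ℕ) {ε : ℝ} (hε : 0 < ε) :
    ∃ c : ℝ, 0 < c ∧ ∀ (σ : Type) [Fintype σ] [DecidableEq σ] (x r : ℕ) (e : Fin r → ℕ),
      1 ≤ x → x ≤ Fintype.card σ → (∀ i, 0 < e i) →
      (∀ e', 1 ≤ e' → e' ≤ D →
        ((Finset.univ.filter fun i => e i = e').card : ℝ) ≤ c * (x : ℝ) ^ ((e' : ℝ) - ε)) →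
      (∀ j ≤ D, ∑ i : Fin r, (if e i ≤ j then gj σ (j - e i) else 0) < gj σ j) ∧
      ∃ B : Fin r → Finset σ, Design D e (zz D D) D B := by
  obtain ⟨a, ha⟩ : ∃ a : ℕ, a = ⌈1 / ε⌉₊ + 1 := ⟨_, rfl⟩
  have ha0 : 0 < a := by omega
  have haε : 1 / (a : ℝ) ≤ ε := by
    have h1 : 1 / ε ≤ a := by
      rw [ha]; push_cast
      have := Nat.le_ceil (1 / ε)
      linarith
    rw [div_le_iff₀ (by exact_mod_cast ha0)]
    rw [div_le_iff₀ hε] at h1
    linarith
  obtain ⟨C, hC, hmix⟩ := exists_mixed D (zz D D) D a ha0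
  have hCR : (0 : ℝ) < C := by exact_mod_cast hC
  have hden : (0 : ℝ) < (C : ℝ) + ((D : ℝ) + 1) ^ (D + 1) + 1 := by positivity
  refine ⟨1 / ((C : ℝ) + ((D : ℝ) + 1) ^ (D + 1) + 1), by positivity, ?_⟩
  intro σ _ _ x r e hx hxσ he hcount
  have hσ : Nonempty σ := Fintype.card_pos_iff.1 (by omega)
  have hx1 : (1 : ℝ) ≤ x := by exact_mod_cast hx
  constructor
  · intro j hj
    refine sum_lt he (c := 1 / ((C : ℝ) + ((D : ℝ) + 1) ^ (D + 1) + 1)) (by positivity) ?_ ?_ hj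
    · rw [one_div, inv_mul_lt_iff₀ hden]
      linarith
    · intro e' h1 h2
      refine (hcount e' h1 h2).trans (mul_le_mul_of_nonneg_left ?_ (by positivity))
      calc (x : ℝ) ^ ((e' : ℝ) - ε) ≤ (x : ℝ) ^ (e' : ℝ) :=
            Real.rpow_le_rpow_of_exponent_le hx1 (by linarith)
        _ = (x : ℝ) ^ e' := Real.rpow_natCast _ _
        _ ≤ (Fintype.card σ : ℝ) ^ e' :=
            pow_le_pow_left₀ (by positivity) (by exact_mod_cast hxσ) _
  · refine hmix σ r e he ?_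
    intro e' h1 h2
    refine (real_to_nat h1 ha0 hC ?_ (δ := (e' : ℝ) - ε) (by linarith) hx
      (hcount e' h1 h2)).trans (Nat.pow_le_pow_left hxσ _)
    refine one_div_le_one_div_of_le hCR ?_
    have : (0 : ℝ) ≤ ((D : ℝ) + 1) ^ (D + 1) := by positivity
    linarith

end
end H350MG
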