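import Mathlib
import Pool.Agent.H350R3.MG.Main

set_option linter.unusedSectionVars false

namespace H350MG
open MvPolynomial

noncomputable section

variable {𝕜 : Type} [Field 𝕜] [CharZero 𝕜] {σ : Type*} [Fintype σ] [DecidableEq σ]

/-- number of conditions counted naively -/
def sm (σ : Type*) [Fintype σ] (l : List ℕ) (j : ℕ) : ℤ :=
  (l.map fun δ => if δ ≤ j then gj σ (j - δ) else 0).sum

lemma sm_cons (δ : ℕ) (l : List ℕ) (j : ℕ) :
    sm σ (δ :: l) j = (if δ ≤ j then gj σ (j - δ) else 0) + sm σ l j := by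
  simp [sm]

lemma finrank_Rj' (j : ℕ) : (Module.finrank 𝕜 (Rj 𝕜 σ j) : ℤ) = gj σ j := by
  rw [finrank_Rj]; rfl

lemma finrank_K_le (l : List ((σ → 𝕜) × ℕ)) (j : ℕ) :
    (Module.finrank 𝕜 (K l j) : ℤ) ≤ gj σ j := by
  rw [← finrank_Rj' (𝕜 := 𝕜)]
  exact_mod_cast Submodule.finrank_mono (K_le l j)

lemma finrank_K_ge (l : List ((σ → 𝕜) × ℕ)) (j : ℕ) :
    gj σ j - sm σ (l.map Prod.snd) j ≤ (Module.finrank 𝕜 (K l j) : ℤ) := by
  induction l with
  | nil =>
    rw [K_nil, finrank_Rj', List.map_nil]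
    simp [sm]
  | cons c l ih =>
    rw [List.map_cons, sm_cons]
    have h1 := rank_nullity c l j
    have h2 := finrank_imK_le c l j
    have h4 : (Module.finrank 𝕜 (K l j) : ℤ) = Module.finrank 𝕜 (K (c :: l) j)
      + Module.finrank 𝕜 (imK c l j) := by exact_mod_cast h1
    by_cases hcj : c.2 ≤ j
    · have h5 := finrank_K_le (𝕜 := 𝕜) l (j - c.2)
      simp only [hcj, if_true] at h2 ⊢
      linarith
    · simp only [hcj, if_false] at h2 ⊢
      linarith

/-- comparison of the expected dimension with the naive count -/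
lemma E_compare (d : ℕ) : ∀ (l : List ((σ → 𝕜) × ℕ)), (∀ c ∈ l, 0 < c.2) → UB d l →
    (∀ j ≤ d, sm σ (l.map Prod.snd) j < gj σ j) →
    (∀ j ≤ d, E (gj σ) (l.map Prod.snd) j ≤ gj σ j) ∧
    (∀ j ≤ d, (∃ δ ∈ l.map Prod.snd, δ ≤ j) → E (gj σ) (l.map Prod.snd) j < gj σ j) ∧
    ((l.map Prod.snd).Pairwise (fun a b => d < a + b) →
      E (gj σ) (l.map Prod.snd) d = gj σ d - sm σ (l.map Prod.snd) d) ∧
    (¬ (l.map Prod.snd).Pairwise (fun a b => d < a + b) →
      gj σ d - sm σ (l.map Prod.snd) d < E (gj σ) (l.map Prod.snd) d) ∧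
    gj σ d - sm σ (l.map Prod.snd) d ≤ E (gj σ) (l.map Prod.snd) d ∧
    (∀ j ≤ d, 0 < E (gj σ) (l.map Prod.snd) j) := by
  intro l
  induction l with
  | nil =>
    intro _ _ hs
    refine ⟨?_, ?_, ?_, ?_, ?_, ?_⟩
    · intro j _; simp [E]
    · rintro j _ ⟨δ, hδ, _⟩; simp at hδ
    · intro _; simp [E, sm]
    · intro h; exact absurd List.Pairwise.nil h
    · simp [E, sm]
    · intro j hj
      have := hs j hj
      simpa [E, sm] using this
  | cons c l ih =>
    intro hpos hUB hs
    have hpos' : ∀ c' ∈ l, 0 < c'.2 := fun c' hc' => hpos c' (List.mem_cons_of_mem _ hc')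
    have hUB' : UB d l := UB_tail (hpos c (List.mem_cons_self ..)) hUB
    have hterm : ∀ j, (0 : ℤ) ≤ if c.2 ≤ j then gj σ (j - c.2) else 0 := by
      intro j; split_ifs
      · exact gj_nonneg _
      · exact le_rfl
    have hs' : ∀ j ≤ d, sm σ (l.map Prod.snd) j < gj σ j := by
      intro j hj
      have h1 := hs j hj
      rw [List.map_cons, sm_cons] at h1
      have := hterm j
      linarith
    obtain ⟨i1, i2, i3, i4, i5, i6⟩ := ih hpos' hUB' hs'
    have hEQ := EQ_of_UB hpos hUB
    have hpos6 : ∀ j ≤ d, 0 < E (gj σ) ((c :: l).map Prod.snd) j := by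
      intro j hj
      rw [← hEQ j hj]
      have h1 := finrank_K_ge (c :: l) j
      have h2 := hs j hj
      linarith
    have hrec : ∀ j, E (gj σ) ((c :: l).map Prod.snd) j = E (gj σ) (l.map Prod.snd) j -
        if c.2 ≤ j then E (gj σ) (l.map Prod.snd) (j - c.2) else 0 := fun j => rfl
    have hEnn : ∀ j ≤ d, (0 : ℤ) ≤ if c.2 ≤ j then E (gj σ) (l.map Prod.snd) (j - c.2) else 0 := by
      intro j hj; split_ifs
      · exact (i6 _ (by omega)).le
      · exact le_rfl
    refine ⟨?_, ?_, ?_, ?_, ?_, hpos6⟩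
    · intro j hj
      rw [hrec]
      have h1 := i1 j hj
      have h2 := hEnn j hj
      linarith
    · rintro j hj ⟨δ, hδ, hδj⟩
      rw [List.map_cons, List.mem_cons] at hδ
      rw [hrec]
      rcases hδ with rfl | hδ
      · rw [if_pos hδj]
        have h1 := i1 j hj
        have h2 := i6 (j - c.2) (by omega)
        linarith
      · have h1 := i2 j hj ⟨δ, hδ, hδj⟩
        have h2 := hEnn j hj
        linarith
    · intro hp
      rw [List.map_cons, List.pairwise_cons] at hp
      rw [hrec, List.map_cons, sm_cons, i3 hp.2]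
      by_cases hc : c.2 ≤ d
      · rw [if_pos hc, if_pos hc]
        have h1 : E (gj σ) (l.map Prod.snd) (d - c.2) = gj σ (d - c.2) := by
          have hall : ∀ δ ∈ l.map Prod.snd, d - c.2 < δ := by
            intro δ hδ
            have := hp.1 δ hδ
            omega
          clear * - hall
          generalize l.map Prod.snd = L at hall
          induction L with
          | nil => rfl
          | cons δ L ihL =>
            simp only [E]
            rw [ihL (fun δ' hδ' => hall δ' (List.mem_cons_of_mem _ hδ')), if_neg, sub_zero]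
            have := hall δ (List.mem_cons_self ..)
            omega
        rw [h1]; ring
      · rw [if_neg hc, if_neg hc]; ring
    · intro hp
      rw [List.map_cons, List.pairwise_cons, not_and_or] at hp
      rw [hrec, List.map_cons, sm_cons]
      rcases hp with hp | hp
      · push Not at hp
        obtain ⟨δ, hδ, hδ'⟩ := hp
        have hc : c.2 ≤ d := by omega
        rw [if_pos hc, if_pos hc]
        have h1 := i2 (d - c.2) (by omega) ⟨δ, hδ, by omega⟩
        linarith
      · have h1 := i4 hp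
        by_cases hc : c.2 ≤ d
        · rw [if_pos hc, if_pos hc]
          have h2 := i1 (d - c.2) (by omega)
          linarith
        · rw [if_neg hc, if_neg hc]; linarith
    · rw [hrec, List.map_cons, sm_cons]
      by_cases hc : c.2 ≤ d
      · rw [if_pos hc, if_pos hc]
        have h2 := i1 (d - c.2) (by omega)
        linarith
      · rw [if_neg hc, if_neg hc]; linarith

lemma sm_ofFn {r : ℕ} (e : Fin r → ℕ) (j : ℕ) :
    sm σ (List.ofFn e) j = ∑ i : Fin r, if e i ≤ j then gj σ (j - e i) else 0 := by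
  unfold sm
  rw [List.map_ofFn, List.sum_ofFn]
  rfl

/-- dimension of the system and comparison with the naive count, for general points -/
theorem generic_compare (𝕜 : Type) [Field 𝕜] [CharZero 𝕜] {d r : ℕ} {e : Fin r → ℕ}
    (he : ∀ i, 0 < e i)
    (hs : ∀ j ≤ d, ∑ i : Fin r, (if e i ≤ j then gj σ (j - e i) else 0) < gj σ j)
    {B : Fin r → Finset σ} (hB : Design d e (zz d d) d B) :
    ∃ Φ : MvPolynomial (Fin r × σ) 𝕜, Φ ≠ 0 ∧ ∀ P, eval P Φ ≠ 0 →
      ((∀ i j : Fin r, i ≠ j → d < e i + e j) → (Module.finrank 𝕜 (K (ptList e P) d) : ℤ) =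
        gj σ d - ∑ i : Fin r, (if e i ≤ d then gj σ (d - e i) else 0)) ∧
      ((∃ i j : Fin r, i ≠ j ∧ e i + e j ≤ d) →
        gj σ d - ∑ i : Fin r, (if e i ≤ d then gj σ (d - e i) else 0) <
          (Module.finrank 𝕜 (K (ptList e P) d) : ℤ)) := by
  obtain ⟨Φ, h0, hΦ⟩ := generic_K_all e d (blPts 𝕜 B)
  refine ⟨Φ, h0, fun P hP => ?_⟩
  have h1 : UB d (ptList e P) := by
    intro j hj
    have h2 := UB_pts 𝕜 he hB j hj
    rw [map_snd_ptList] at h2 ⊢
    have h3 := hΦ P hP j hj
    exact (Nat.cast_le.2 h3).trans h2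
  have hs' : ∀ j ≤ d, sm σ ((ptList e P).map Prod.snd) j < gj σ j := by
    intro j hj
    rw [map_snd_ptList, sm_ofFn]
    exact hs j hj
  have h4 := EQ_of_UB (ptList_pos he P) h1 d le_rfl
  obtain ⟨_, _, c3, c4, _, _⟩ := E_compare d (ptList e P) (ptList_pos he P) h1 hs'
  rw [h4]
  rw [map_snd_ptList] at c3 c4 ⊢
  rw [sm_ofFn] at c3 c4
  constructor
  · intro h
    refine c3 ?_
    rw [List.pairwise_ofFn]
    intro i j hij
    exact h i j hij.ne
  · rintro ⟨i, j, hij, hle⟩
    refine c4 ?_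
    rw [List.pairwise_ofFn]
    intro hcon
    rcases lt_or_gt_of_ne hij with h | h
    · have := hcon h; omega
    · have := hcon h; omega

end
end H350MG
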