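import Mathlib
import Pool.Agent.H350R3.MG.PDefs
import Pool.Agent.H350R3.MG.Ops

set_option autoImplicit false

namespace Pool.Agent.H350R3.MG

open MvPolynomial
open scoped LinearAlgebra.Projectivization

lemma primeIdeal_mk {n : ℕ} (v : Fin (n + 1) → ℂ) (hv : v ≠ 0) :
    primeIdeal (Projectivization.mk ℂ v hv) = H350MG.pointIdeal v := by
  ext F
  change (∀ w ∈ (Projectivization.mk ℂ v hv).submodule, eval w F = 0) ↔
    ∀ t : ℂ, eval (t • v) F = 0
  rw [Projectivization.submodule_mk]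
  constructor
  · intro h t
    exact h _ (Submodule.smul_mem _ _ (Submodule.mem_span_singleton_self v))
  · intro h w hw
    obtain ⟨t, rfl⟩ := Submodule.mem_span_singleton.1 hw
    exact h t

lemma eval_scale {n r : ℕ} (t : Fin r → ℂ) (v : Fin r → Fin (n + 1) → ℂ)
    (G : MvPolynomial (Fin r × Fin (n + 1)) ℂ) :
    eval (fun x : Fin r × Fin (n + 1) => v x.1 x.2)
      (aeval (fun x : Fin r × Fin (n + 1) => C (t x.1) * X x) G)
      = eval (fun x : Fin r × Fin (n + 1) => (t x.1 • v x.1) x.2) G := by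
  induction G using MvPolynomial.induction_on with
  | C a => simp [algebraMap_eq]
  | add p q hp hq => rw [map_add, map_add, hp, hq, map_add]
  | mul_X p i hp =>
    rw [map_mul, map_mul, hp, map_mul, aeval_X, map_mul, eval_C, eval_X, eval_X]
    rfl

/-- a property of the homogeneous coordinates which holds off a hypersurface holds generally -/
lemma generally_of_poly {n k : ℕ} {Q : (Fin k → ℙ ℂ (Fin (n + 1) → ℂ)) → Prop}
    (Φ : MvPolynomial (Fin k × Fin (n + 1)) ℂ) (hΦ0 : Φ ≠ 0)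
    (h : ∀ (v : Fin k → Fin (n + 1) → ℂ) (hv : ∀ i, v i ≠ 0),
      eval (fun x : Fin k × Fin (n + 1) => v x.1 x.2) Φ ≠ 0 →
        Q (fun i => Projectivization.mk ℂ (v i) (hv i))) : Generally Q := by
  refine ⟨{P | ∃ (v : Fin k → Fin (n + 1) → ℂ) (hv : ∀ i, v i ≠ 0),
    (∀ i, Projectivization.mk ℂ (v i) (hv i) = P i) ∧
      eval (fun x : Fin k × Fin (n + 1) => v x.1 x.2) Φ ≠ 0}, ?_, ?_, ?_⟩
  · -- openness
    refine ⟨{f | ∃ t : Fin k → ℂ, (∀ i, t i ≠ 0) ∧
      f = aeval (fun x : Fin k × Fin (n + 1) => C (t x.1) * X x) Φ}, ?_⟩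
    intro v hv
    constructor
    · rintro ⟨v', hv', h1, h2⟩
      have h3 : ∀ i, ∃ t : ℂ, t • v i = v' i := fun i =>
        (Projectivization.mk_eq_mk_iff' ℂ _ _ _ _).1 (h1 i)
      choose t ht using h3
      have ht0 : ∀ i, t i ≠ 0 := by
        intro i h0
        apply hv' i
        rw [← ht i, h0, zero_smul]
      refine ⟨_, ⟨t, ht0, rfl⟩, ?_⟩
      rw [eval_scale]
      simpa only [ht] using h2
    · rintro ⟨f, ⟨t, ht0, rfl⟩, h2⟩
      rw [eval_scale] at h2
      refine ⟨fun i => t i • v i, fun i => smul_ne_zero (ht0 i) (hv i), fun i => ?_, h2⟩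
      rw [Projectivization.mk_eq_mk_iff']
      exact ⟨t i, rfl⟩
  · -- nonempty
    have h1 : Φ * ∏ k : Fin k, X (k, (0 : Fin (n + 1))) ≠ 0 :=
      mul_ne_zero hΦ0 (Finset.prod_ne_zero_iff.2 fun k _ => X_ne_zero _)
    obtain ⟨w, hw⟩ : ∃ w : Fin k × Fin (n + 1) → ℂ,
        eval w (Φ * ∏ k : Fin k, X (k, (0 : Fin (n + 1)))) ≠ 0 := by
      by_contra hcon
      push Not at hcon
      exact h1 (MvPolynomial.funext fun w => by rw [hcon w, map_zero])
    rw [map_mul, map_prod] at hw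
    have hw1 := left_ne_zero_of_mul hw
    have hw2 := Finset.prod_ne_zero_iff.1 (right_ne_zero_of_mul hw)
    have hv : ∀ i : Fin k, (fun j => w (i, j)) ≠ 0 := by
      intro i h0
      have := hw2 i (Finset.mem_univ i)
      rw [eval_X] at this
      exact this (congrFun h0 0)
    exact ⟨fun i => Projectivization.mk ℂ (fun j => w (i, j)) (hv i), fun i j => w (i, j), hv,
      fun i => rfl, hw1⟩
  · rintro P ⟨v, hv, h1, h2⟩
    have h3 := h v hv h2
    have h4 : (fun i => Projectivization.mk ℂ (v i) (hv i)) = P := funext h1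
    rwa [h4] at h3

end Pool.Agent.H350R3.MG
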